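import Mathlib
import Pool.Agent.L0h42.EG.E12

/-! Linear sieve sums over a family of systems of linear forms (polarisation). -/

set_option autoImplicit false
set_option linter.unusedSectionVars false

namespace Pool.Agent.L0h42.EL
open Finset
open Pool.Agent.L0h42.TB
open Pool.Agent.L0h42.EG
open Pool.Agent.H373R2.T7

section gen
variable {κ : Type*} [Fintype κ] [DecidableEq κ]

/-- the trivial weights -/
noncomputable def o1 (d : κ → ℕ) : ℝ := if d = (fun _ => 1) then 1 else 0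

/-- the linear form -/
noncomputable def Lf (z R : ℕ) (Λ : (κ → ℕ) → ℝ) : ℝ := ∑ d ∈ PD κ z R, Λ d * ∏ x, (1 / (d x : ℝ))

lemma ones_PD {z R : ℕ} (hR : 1 ≤ R) : (fun _ => 1 : κ → ℕ) ∈ PD κ z R := mem_PD.2 fun _ => one_mem_RR hR

lemma SS_shift (z R : ℕ) (hR : 1 ≤ R) (Λ : (κ → ℕ) → ℝ) (s : ℝ) (c : κ → ℤ) (a : ℕ) :
    SS z R (fun d => Λ d + s * o1 d) c a = SS z R Λ c a + s := by
  classical
  unfold SS
  have h1 : ∀ d ∈ PD κ z R, (Λ d + s * o1 d) * (if Hit c d a then (1 : ℝ) else 0) =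
      Λ d * (if Hit c d a then 1 else 0) + s * (o1 d * (if Hit c d a then 1 else 0)) := by
    intro d _; ring
  rw [sum_congr rfl h1, sum_add_distrib, ← mul_sum]
  congr 1
  rw [sum_eq_single (fun _ => 1 : κ → ℕ)]
  · have h2 : Hit c (fun _ => 1) a := fun x => by simp
    unfold o1
    rw [if_pos rfl, if_pos h2]
    ring
  · intro d _ hd
    unfold o1
    rw [if_neg hd, zero_mul]
  · exact fun h => absurd (ones_PD hR) h

lemma Qf_shift (z R : ℕ) (hR : 1 ≤ R) (Λ : (κ → ℕ) → ℝ) (s : ℝ) :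
    Qf z R (fun d => Λ d + s * o1 d) = Qf z R Λ + 2 * s * Lf z R Λ + s ^ 2 := by
  have h1 : ∀ d ∈ PD κ z R, ∀ e ∈ PD κ z R, (Λ d + s * o1 d) * (Λ e + s * o1 e) * ∏ x, (1 / (Nat.lcm (d x) (e x) : ℝ)) =
      Λ d * Λ e * ∏ x, (1 / (Nat.lcm (d x) (e x) : ℝ)) + s * (Λ d * (o1 e * ∏ x, (1 / (Nat.lcm (d x) (e x) : ℝ)))) +
      s * (o1 d * (Λ e * ∏ x, (1 / (Nat.lcm (d x) (e x) : ℝ)))) + s ^ 2 * (o1 d * (o1 e * ∏ x, (1 / (Nat.lcm (d x) (e x) : ℝ)))) := by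
    intro d _ e _; ring
  unfold Qf
  rw [sum_congr rfl fun d hd => sum_congr rfl fun e he => h1 d hd e he]
  simp only [sum_add_distrib, ← mul_sum]
  have hone := ones_PD (κ := κ) (z := z) hR
  have h2 : ∀ f : (κ → ℕ) → ℝ, ∑ e ∈ PD κ z R, o1 e * f e = f (fun _ => 1) := by
    intro f
    rw [sum_eq_single (fun _ => 1 : κ → ℕ)]
    · unfold o1; rw [if_pos rfl, one_mul]
    · intro d _ hd
      unfold o1
      rw [if_neg hd, zero_mul]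
    · exact fun h => absurd hone h
  have e1 : ∑ d ∈ PD κ z R, Λ d * ∑ e ∈ PD κ z R, o1 e * ∏ x, (1 / (Nat.lcm (d x) (e x) : ℝ)) = Lf z R Λ := by
    unfold Lf
    apply sum_congr rfl
    intro d _
    rw [h2 (fun e => ∏ x, (1 / (Nat.lcm (d x) (e x) : ℝ)))]
    simp
  have e2 : ∑ d ∈ PD κ z R, o1 d * ∑ e ∈ PD κ z R, Λ e * ∏ x, (1 / (Nat.lcm (d x) (e x) : ℝ)) = Lf z R Λ := by
    rw [h2 (fun d => ∑ e ∈ PD κ z R, Λ e * ∏ x, (1 / (Nat.lcm (d x) (e x) : ℝ)))]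
    unfold Lf
    simp
  have e3 : ∑ d ∈ PD κ z R, o1 d * ∑ e ∈ PD κ z R, o1 e * ∏ x, (1 / (Nat.lcm (d x) (e x) : ℝ)) = 1 := by
    rw [h2 (fun d => ∑ e ∈ PD κ z R, o1 e * ∏ x, (1 / (Nat.lcm (d x) (e x) : ℝ))), h2 (fun e => ∏ x, (1 / (Nat.lcm 1 (e x) : ℝ)))]
    simp
  rw [e1, e2, e3]
  ring

open Classical in
/-- **the linear main terms.** -/
theorem main_lin {τ : Type*} (T : Finset τ) (c : τ → κ → ℤ) (z R y1 y2 N r K Q : ℕ) (hy : y1 ≤ y2) (hyN : y2 ≤ N)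
    (hK : Fintype.card κ ≤ K) (hK1 : 1 ≤ K) (hz : 1 ≤ z) (hR : 1 ≤ R)
    (Λ : (κ → ℕ) → ℝ) (W : ℝ) (hΛ : ∀ d ∈ PD κ z R, |Λ d| + 1 ≤ W) (G : (κ → ℕ) → Prop) (hG : ∀ d, Λ d ≠ 0 → G d) (hG1 : G (fun _ => 1))
    (hs : ∀ d, G d → ∏ l, d l ≤ Q)
    (Γ : ℝ) (hΓ : 0 ≤ Γ) (hconf : ∀ x ∈ PD κ z R ×ˢ PD κ z R, G x.1 → G x.2 → Conf x →
      ∑ t ∈ T, (((Ioc y1 y2).filter (fun a => Hit (c t) (lc x) a)).card : ℝ) ≤ Γ * (1 / (∏ l, lc x l : ℕ))) :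
    ∑ t ∈ T, |∑ a ∈ Ioc y1 y2, Gr z (c t) a * SS z R Λ (c t) a - ((y2 : ℝ) - y1) * VV z (c t) * Lf z R Λ| ≤
      W * W * ((1 + Real.log R) ^ 3) ^ (Fintype.card κ) *
        (T.card * (2 * (((z : ℝ) + 1) ^ r * (K : ℝ) ^ r * (Q * Q)) + 4 * N * Real.exp (3 * (K * (1 + Real.log z)) - r)) +
          (Γ + T.card * N) * ((K : ℝ) ^ 2 * (9 / z))) := by
  have hW : 0 ≤ W := by
    have := hΛ _ (ones_PD hR)
    have := abs_nonneg (Λ fun _ => 1)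
    linarith
  have hne : ∀ (s : ℝ) (d : κ → ℕ), Λ d + s * o1 d ≠ 0 → G d := by
    intro s d hd
    by_cases h1 : d = fun _ => 1
    · rw [h1]; exact hG1
    · apply hG
      unfold o1 at hd
      rwa [if_neg h1, mul_zero, add_zero] at hd
  have hbd : ∀ s : ℝ, |s| ≤ 1 → ∀ d ∈ PD κ z R, |Λ d + s * o1 d| ≤ W := by
    intro s hs1 d hd
    refine (abs_add_le _ _).trans (le_trans ?_ (hΛ d hd))
    have h2 : |s * o1 d| ≤ 1 := by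
      rw [abs_mul]
      have h3 : |(o1 d : ℝ)| ≤ 1 := by unfold o1; split_ifs <;> simp
      exact mul_le_one₀ hs1 (abs_nonneg _) h3
    linarith
  have kp := main_gen T c z R y1 y2 N r K Q hy hyN hK hK1 hz hR (fun d => Λ d + 1 * o1 d) W hW (hbd 1 (by simp))
    (fun d hd => hs d (hne 1 d hd)) Γ hΓ (fun x hx h1 h2 hc => hconf x hx (hne 1 _ h1) (hne 1 _ h2) hc)
  have km := main_gen T c z R y1 y2 N r K Q hy hyN hK hK1 hz hR (fun d => Λ d + (-1) * o1 d) W hW (hbd (-1) (by simp))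
    (fun d hd => hs d (hne (-1) d hd)) Γ hΓ (fun x hx h1 h2 hc => hconf x hx (hne (-1) _ h1) (hne (-1) _ h2) hc)
  obtain ⟨Bd, hBd⟩ : ∃ Bd, Bd = W * W * ((1 + Real.log R) ^ 3) ^ (Fintype.card κ) *
        (T.card * (2 * (((z : ℝ) + 1) ^ r * (K : ℝ) ^ r * (Q * Q)) + 4 * N * Real.exp (3 * (K * (1 + Real.log z)) - r)) +
          (Γ + T.card * N) * ((K : ℝ) ^ 2 * (9 / z))) := ⟨_, rfl⟩
  rw [← hBd] at kp km ⊢
  have hterm : ∀ t ∈ T, |∑ a ∈ Ioc y1 y2, Gr z (c t) a * SS z R Λ (c t) a - ((y2 : ℝ) - y1) * VV z (c t) * Lf z R Λ| ≤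
      (|∑ a ∈ Ioc y1 y2, Gr z (c t) a * SS z R (fun d => Λ d + 1 * o1 d) (c t) a ^ 2 - ((y2 : ℝ) - y1) * VV z (c t) * Qf z R (fun d => Λ d + 1 * o1 d)| +
       |∑ a ∈ Ioc y1 y2, Gr z (c t) a * SS z R (fun d => Λ d + (-1) * o1 d) (c t) a ^ 2 - ((y2 : ℝ) - y1) * VV z (c t) * Qf z R (fun d => Λ d + (-1) * o1 d)|) / 4 := by
    intro t _
    rw [Qf_shift z R hR, Qf_shift z R hR]
    have e1 : ∑ a ∈ Ioc y1 y2, Gr z (c t) a * SS z R (fun d => Λ d + 1 * o1 d) (c t) a ^ 2 =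
        ∑ a ∈ Ioc y1 y2, Gr z (c t) a * SS z R (fun d => Λ d + (-1) * o1 d) (c t) a ^ 2 + 4 * ∑ a ∈ Ioc y1 y2, Gr z (c t) a * SS z R Λ (c t) a := by
      rw [mul_sum, ← sum_add_distrib]
      apply sum_congr rfl
      intro a _
      rw [SS_shift z R hR, SS_shift z R hR]
      ring
    rw [e1]
    obtain ⟨X, hX⟩ : ∃ X, X = ∑ a ∈ Ioc y1 y2, Gr z (c t) a * SS z R Λ (c t) a - ((y2 : ℝ) - y1) * VV z (c t) * Lf z R Λ := ⟨_, rfl⟩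
    obtain ⟨Y, hY⟩ : ∃ Y, Y = ∑ a ∈ Ioc y1 y2, Gr z (c t) a * SS z R (fun d => Λ d + (-1) * o1 d) (c t) a ^ 2 -
      ((y2 : ℝ) - y1) * VV z (c t) * (Qf z R Λ + 2 * (-1) * Lf z R Λ + (-1) ^ 2) := ⟨_, rfl⟩
    have e2 : ∑ a ∈ Ioc y1 y2, Gr z (c t) a * SS z R (fun d => Λ d + (-1) * o1 d) (c t) a ^ 2 + 4 * ∑ a ∈ Ioc y1 y2, Gr z (c t) a * SS z R Λ (c t) a -
        ((y2 : ℝ) - y1) * VV z (c t) * (Qf z R Λ + 2 * 1 * Lf z R Λ + 1 ^ 2) = Y + 4 * X := by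
      rw [hX, hY]; ring
    rw [e2, ← hX, ← hY]
    have e3 : 4 * X = (Y + 4 * X) - Y := by ring
    have e4 : |4 * X| ≤ |Y + 4 * X| + |Y| := by
      rw [e3]
      refine (abs_sub _ _).trans (le_of_eq ?_)
      ring_nf
    rw [abs_mul, abs_of_pos (by norm_num : (0 : ℝ) < 4)] at e4
    linarith
  have hsum := sum_le_sum hterm
  rw [← sum_div, sum_add_distrib] at hsum
  have hB0 : 0 ≤ Bd := (sum_nonneg fun _ _ => abs_nonneg _).trans kp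
  linarith

end gen

end Pool.Agent.L0h42.EL
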