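import Mathlib
import Pool.Agent.L0h42.EL.L1

/-! The first two moments of the linear sieve sums over shifted points. -/

set_option autoImplicit false
set_option linter.unusedSectionVars false

namespace Pool.Agent.L0h42.EL
open Finset
open Pool.Agent.L0h42.TB
open Pool.Agent.L0h42.EG
open Pool.Agent.H373R2.T7

/-- the linear sieve function -/
noncomputable def FL {k : ℕ} (z R : ℕ) (h : Fin k → ℕ) (Λ : (Fin k → ℕ) → ℝ) (a : ℕ) : ℝ := Gr z (cneg h) a * SS z R Λ (cneg h) a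

section sh
variable {k : ℕ}

lemma FL_c2 (z R : ℕ) (Λ : (Fin k → ℕ) → ℝ) (h : Fin k → ℕ) {n a a' : ℕ} {s s' : ℤ} (ha : (a : ℤ) = n + s) (ha' : (a' : ℤ) = n + s') :
    Gr z (c2 h s s') n * SS z R (Lj Λ Λ) (c2 h s s') n = FL z R h Λ a * FL z R h Λ a' := by
  unfold FL
  rw [Gr_c2, SS_c2, Gr_cz z h ha, Gr_cz z h ha', SS_cz z R Λ h ha, SS_cz z R Λ h ha']
  ring

lemma FL_cz (z R : ℕ) (Λ : (Fin k → ℕ) → ℝ) (h : Fin k → ℕ) {n a : ℕ} {s : ℤ} (ha : (a : ℤ) = n + s) :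
    Gr z (cz h s) n * SS z R Λ (cz h s) n = FL z R h Λ a := by
  unfold FL
  rw [Gr_cz z h ha, SS_cz z R Λ h ha]

lemma Lf_joint (z R : ℕ) (Λ Λ' : (Fin k → ℕ) → ℝ) : Lf z R (Lj Λ Λ') = Lf z R Λ * Lf z R Λ' := by
  unfold Lf
  rw [sum_PD_sum, sum_mul_sum]
  apply sum_congr rfl
  intro d _
  apply sum_congr rfl
  intro e _
  unfold Lj
  rw [Fintype.prod_sum_type]
  simp only [Sum.elim_inl, Sum.elim_inr]
  ring

end sh

/-- **the second moment.** -/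
theorem second_lin (k A B : ℕ) (hk : 1 ≤ k) : ∃ E0 : ℕ, ∀ E : ℕ, ∃ N0 : ℕ, ∀ N : ℕ, N0 ≤ N → ∀ z R Y U : ℕ,
    Real.log N ^ E0 ≤ z → (z : ℝ) ≤ Real.log N ^ E → 1 ≤ R → R ^ 80 ≤ N → 6 * Y ≤ N → U ≤ Y →
    ∀ h : Fin k → ℕ, Function.Injective h → (∀ l, h l ≤ z) → ∀ M ⊆ Icc 1 Y, ∀ Λ : (Fin k → ℕ) → ℝ,
    (∀ d ∈ PD (Fin k) z R, |Λ d| ≤ Real.log N ^ B) → (∀ d, Λ d ≠ 0 → ∏ l, d l ≤ R) →
    ∑ t ∈ (range U ×ˢ M) ×ˢ (range U ×ˢ M), |∑ n ∈ Ioc (2 * Y) (4 * Y),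
        FL z R h Λ (n + t.1.1 - t.1.2) * FL z R h Λ (n + t.2.1 - t.2.2) -
      2 * Y * VV z (c2 h ((t.1.1 : ℤ) - t.1.2) ((t.2.1 : ℤ) - t.2.2)) * (Lf z R Λ * Lf z R Λ)| ≤ U ^ 2 * N ^ 3 / Real.log N ^ A := by
  classical
  obtain ⟨E0, hE0⟩ := setup (2 * k) (2 * B + 1) A (by omega)
  refine ⟨E0, fun E => ?_⟩
  obtain ⟨N0, h0⟩ := hE0 E
  obtain ⟨n2, hn2⟩ := ev_L' 2
  refine ⟨max N0 n2, ?_⟩
  intro N hN z R Y U hz1 hz2 hR1 hR hY hU h hinj hhz M hM Λ hΛ hs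
  obtain ⟨hz, hL1, hR2N, r, hr⟩ := h0 N (le_trans (le_max_left _ _) hN) z R hz1 hz2 hR1 hR
  have hL2 := hn2 N (le_trans (le_max_right _ _) hN)
  set L := Real.log N with hLd
  have hL0 : 0 < L := by linarith
  have hB0 : (0 : ℝ) ≤ L ^ B := by positivity
  have hLB : L ^ (2 * B) = L ^ B * L ^ B := by ring
  obtain ⟨Λj, hΛj⟩ : ∃ Λj, Λj = Lj Λ Λ := ⟨_, rfl⟩
  have hj1 : ∀ δ ∈ PD (Fin k ⊕ Fin k) z R, |Λj δ| ≤ L ^ (2 * B) := by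
    intro δ hδ
    rw [hΛj, hLB]
    unfold Lj
    rw [abs_mul]
    exact mul_le_mul (hΛ _ (mem_PD.2 fun l => mem_PD.1 hδ _)) (hΛ _ (mem_PD.2 fun l => mem_PD.1 hδ _)) (abs_nonneg _) hB0
  have hj2 : ∀ δ, Λj δ ≠ 0 → ∏ l, δ (Sum.inl l) ≤ R ∧ ∏ l, δ (Sum.inr l) ≤ R := by
    intro δ hδ
    rw [hΛj] at hδ
    unfold Lj at hδ
    exact ⟨hs _ (left_ne_zero_of_mul hδ), hs _ (right_ne_zero_of_mul hδ)⟩
  have hj3 : ∀ δ : Fin k ⊕ Fin k → ℕ, (∏ l, δ (Sum.inl l) ≤ R ∧ ∏ l, δ (Sum.inr l) ≤ R) → ∏ l, δ l ≤ R * R := by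
    intro δ hδ
    rw [Fintype.prod_sum_type]
    exact Nat.mul_le_mul hδ.1 hδ.2
  have hj4 : ∀ δ ∈ PD (Fin k ⊕ Fin k) z R, |Λj δ| + 1 ≤ L ^ (2 * B + 1) := by
    intro δ hδ
    have q1 := hj1 δ hδ
    have q2 : 1 ≤ L ^ (2 * B) := one_le_pow₀ hL1
    rw [pow_succ]
    nlinarith
  have hcard : Fintype.card (Fin k ⊕ Fin k) = 2 * k := by simp; omega
  obtain ⟨TT, hTT⟩ : ∃ TT, TT = (range U ×ˢ M) ×ˢ (range U ×ˢ M) := ⟨_, rfl⟩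
  have key := main_lin TT (fun t => c2 h ((t.1.1 : ℤ) - t.1.2) ((t.2.1 : ℤ) - t.2.2)) z R (2 * Y) (4 * Y) N r (2 * k) (R * R)
    (by omega) (by omega) hcard.le (by omega) hz hR1 Λj (L ^ (2 * B + 1)) hj4
    (fun δ => ∏ l, δ (Sum.inl l) ≤ R ∧ ∏ l, δ (Sum.inr l) ≤ R) hj2 (by simp; omega) hj3 (4 * U ^ 2 * N ^ 3) (by positivity) (by
      intro x hx hx1 hx2 _
      rw [mem_product] at hx
      rw [hTT]
      exact pair_count2 z R N Y U h hinj hhz hY hU M hM x hx.1 hx.2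
        (((lc_prod_le (xl x)).trans (Nat.mul_le_mul hx1.1 hx2.1)).trans hR2N)
        (((lc_prod_le (xr x)).trans (Nat.mul_le_mul hx1.2 hx2.2)).trans hR2N))
  rw [hcard] at key
  have e1 : ∀ t ∈ TT, |∑ n ∈ Ioc (2 * Y) (4 * Y),
        FL z R h Λ (n + t.1.1 - t.1.2) * FL z R h Λ (n + t.2.1 - t.2.2) -
      2 * Y * VV z (c2 h ((t.1.1 : ℤ) - t.1.2) ((t.2.1 : ℤ) - t.2.2)) * (Lf z R Λ * Lf z R Λ)| =
      |∑ a ∈ Ioc (2 * Y) (4 * Y), Gr z (c2 h ((t.1.1 : ℤ) - t.1.2) ((t.2.1 : ℤ) - t.2.2)) a *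
        SS z R Λj (c2 h ((t.1.1 : ℤ) - t.1.2) ((t.2.1 : ℤ) - t.2.2)) a -
        (((4 * Y : ℕ) : ℝ) - ((2 * Y : ℕ) : ℝ)) * VV z (c2 h ((t.1.1 : ℤ) - t.1.2) ((t.2.1 : ℤ) - t.2.2)) * Lf z R Λj| := by
    intro t ht
    rw [hTT, mem_product, mem_product, mem_product] at ht
    have j1 := mem_Icc.1 (hM ht.1.2)
    have j2 := mem_Icc.1 (hM ht.2.2)
    congr 1
    rw [hΛj, Lf_joint]
    have e2 : (((4 * Y : ℕ) : ℝ) - ((2 * Y : ℕ) : ℝ)) = 2 * Y := by push_cast; ring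
    rw [e2]
    congr 1
    apply sum_congr rfl
    intro n hn
    rw [mem_Ioc] at hn
    exact (FL_c2 z R Λ h (n := n) (a := n + t.1.1 - t.1.2) (a' := n + t.2.1 - t.2.2) (s := (t.1.1 : ℤ) - t.1.2) (s' := (t.2.1 : ℤ) - t.2.2)
      (by omega) (by omega)).symm
  rw [← hTT, sum_congr rfl e1]
  refine key.trans ?_
  have hc1 : (TT.card : ℝ) ≤ U ^ 2 * N ^ 2 := by
    have : TT.card ≤ U ^ 2 * N ^ 2 := by
      rw [hTT, card_product, card_product, card_range]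
      have h1 : M.card ≤ N := by
        have := card_le_card hM
        rw [Nat.card_Icc] at this
        omega
      calc U * M.card * (U * M.card) ≤ U * N * (U * N) := Nat.mul_le_mul (Nat.mul_le_mul_left _ h1) (Nat.mul_le_mul_left _ h1)
        _ = _ := by ring
    exact_mod_cast this
  have hRr : (1 : ℝ) ≤ R := by exact_mod_cast hR1
  have hlR0 : 0 ≤ Real.log R := Real.log_nonneg hRr
  have hUN : (0 : ℝ) ≤ (U : ℝ) ^ 2 * N ^ 2 := by positivity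
  calc _ ≤ L ^ (2 * B + 1) * L ^ (2 * B + 1) * ((1 + Real.log R) ^ 3) ^ (2 * k) *
        ((U ^ 2 * N ^ 2) * (2 * (((z : ℝ) + 1) ^ r * ((2 * k : ℕ) : ℝ) ^ r * ((R * R : ℕ) * (R * R : ℕ))) + 4 * N * Real.exp (3 * (((2 * k : ℕ) : ℝ) * (1 + Real.log z)) - r)) +
          (4 * U ^ 2 * N ^ 3 + (U ^ 2 * N ^ 2) * N) * (((2 * k : ℕ) : ℝ) ^ 2 * (9 / z))) := by
        gcongr
    _ = (U ^ 2 * N ^ 2) * (L ^ (2 * B + 1) * L ^ (2 * B + 1) * ((1 + Real.log R) ^ 3) ^ (2 * k) *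
        ((2 * (((z : ℝ) + 1) ^ r * ((2 * k : ℕ) : ℝ) ^ r * ((R * R : ℕ) * (R * R : ℕ))) + 4 * N * Real.exp (3 * (((2 * k : ℕ) : ℝ) * (1 + Real.log z)) - r)) +
          5 * N * (((2 * k : ℕ) : ℝ) ^ 2 * (9 / z)))) := by ring
    _ ≤ (U ^ 2 * N ^ 2) * (N / L ^ A) := mul_le_mul_of_nonneg_left hr hUN
    _ = _ := by ring

/-- **the first moment.** -/
theorem first_lin (k A B : ℕ) (hk : 1 ≤ k) : ∃ E0 : ℕ, ∀ E : ℕ, ∃ N0 : ℕ, ∀ N : ℕ, N0 ≤ N → ∀ z R Y U : ℕ,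
    Real.log N ^ E0 ≤ z → (z : ℝ) ≤ Real.log N ^ E → 1 ≤ R → R ^ 80 ≤ N → 6 * Y ≤ N → U ≤ Y →
    ∀ h : Fin k → ℕ, Function.Injective h → (∀ l, h l ≤ z) → ∀ Λ : (Fin k → ℕ) → ℝ,
    (∀ d ∈ PD (Fin k) z R, |Λ d| ≤ Real.log N ^ B) → (∀ d, Λ d ≠ 0 → ∏ l, d l ≤ R) → ∀ u j : ℕ, u < U → 1 ≤ j → j ≤ Y →
    |∑ n ∈ Ioc (2 * Y) (4 * Y), FL z R h Λ (n + u - j) - 2 * Y * VV z (cneg h) * Lf z R Λ| ≤ N / Real.log N ^ A := by
  classical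
  obtain ⟨E0, hE0⟩ := setup k (B + 1) A hk
  refine ⟨E0, fun E => ?_⟩
  obtain ⟨N0, h0⟩ := hE0 E
  obtain ⟨n2, hn2⟩ := ev_L' 2
  refine ⟨max N0 n2, ?_⟩
  intro N hN z R Y U hz1 hz2 hR1 hR hY hU h hinj hhz Λ hΛ hs u j hu hj1 hj2
  obtain ⟨hz, hL1, hR2N, r, hr⟩ := h0 N (le_trans (le_max_left _ _) hN) z R hz1 hz2 hR1 hR
  have hL2 := hn2 N (le_trans (le_max_right _ _) hN)
  set L := Real.log N with hLd
  have hL0 : 0 < L := by linarith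
  have hcard : Fintype.card (Fin k) = k := Fintype.card_fin k
  have hRR : R ≤ R * R := Nat.le_mul_self R
  have hj4 : ∀ δ ∈ PD (Fin k) z R, |Λ δ| + 1 ≤ L ^ (B + 1) := by
    intro δ hδ
    have q1 := hΛ δ hδ
    have q2 : 1 ≤ L ^ B := one_le_pow₀ hL1
    rw [pow_succ]
    nlinarith
  have key := main_lin ({()} : Finset Unit) (fun _ => cz h ((u : ℤ) - j)) z R (2 * Y) (4 * Y) N r k (R * R)
    (by omega) (by omega) hcard.le hk hz hR1 Λ (L ^ (B + 1)) hj4 (fun d => ∏ l, d l ≤ R) hs (by simp; omega)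
    (fun d hd => hd.trans hRR) 0 le_rfl (by
      intro x hx hx1 hx2 hc
      rw [mem_product] at hx
      rw [sum_singleton, zero_mul, filter_eq_empty_iff.2, card_empty, Nat.cast_zero]
      intro n hn hh
      rw [mem_Ioc] at hn
      have h1 := (hit_cz h (n := n) (a := n + u - j) (s := (u : ℤ) - j) (by omega) (lc x)).1 hh
      exact hc (hit_coprime hinj hhz hx.1 hx.2 h1))
  rw [hcard, sum_singleton, card_singleton, VV_cz] at key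
  have e1 : ∑ n ∈ Ioc (2 * Y) (4 * Y), FL z R h Λ (n + u - j) =
      ∑ a ∈ Ioc (2 * Y) (4 * Y), Gr z (cz h ((u : ℤ) - j)) a * SS z R Λ (cz h ((u : ℤ) - j)) a := by
    apply sum_congr rfl
    intro n hn
    rw [mem_Ioc] at hn
    exact (FL_cz z R Λ h (n := n) (a := n + u - j) (s := (u : ℤ) - j) (by omega)).symm
  have e2 : (((4 * Y : ℕ) : ℝ) - ((2 * Y : ℕ) : ℝ)) = 2 * Y := by push_cast; ring
  rw [e2] at key
  rw [e1]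
  refine key.trans ?_
  have hRr : (1 : ℝ) ≤ R := by exact_mod_cast hR1
  have hlR0 : 0 ≤ Real.log R := Real.log_nonneg hRr
  refine le_trans ?_ hr
  apply mul_le_mul_of_nonneg_left _ (by positivity)
  have q0 : (0 : ℝ) ≤ (k : ℝ) ^ 2 * (9 / z) := by positivity
  have q1 : (0 : ℝ) ≤ N := Nat.cast_nonneg _
  have q2 : (0 : ℝ) ≤ N * ((k : ℝ) ^ 2 * (9 / z)) := by positivity
  push_cast
  nlinarith

end Pool.Agent.L0h42.EL
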