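import Mathlib
import Pool.Agent.L0h42.EL.L3

/-! The variance for the linear sieve sums. -/

set_option autoImplicit false
set_option linter.unusedSectionVars false

namespace Pool.Agent.L0h42.EL
open Finset
open Pool.Agent.L0h42.TB
open Pool.Agent.L0h42.EG hiding w_choice V_low_L total_gen sing_total variance_gen variance
open Pool.Agent.H373R2.T7

/-- the sum over the shifted points -/
noncomputable def TL {k : ℕ} (z R U : ℕ) (M : Finset ℕ) (h : Fin k → ℕ) (Λ : (Fin k → ℕ) → ℝ) (n : ℕ) : ℝ :=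
  ∑ t ∈ range U ×ˢ M, FL z R h Λ (n + t.1 - t.2)

open Classical in
/-- **the variance**, assuming a bound for the sum of the singular factor. -/
theorem variance_lin0 (k A B : ℕ) (hk : 1 ≤ k) (h : Fin k → ℕ) (hinj : Function.Injective h) (hd : ∀ z, (1 / (4 * (k : ℝ))) ^ (4 * k) * Vz z ^ (4 * k) ≤ VV z (cneg h)) :
    ∃ E0 : ℕ, ∀ E : ℕ, ∀ δ : ℝ, 0 < δ → δ ≤ 1 → ∃ N0 : ℕ, ∀ N : ℕ, N0 ≤ N → ∀ z R Y U : ℕ,
    Real.log N ^ E0 ≤ z → (z : ℝ) ≤ Real.log N ^ E → 1 ≤ R → R ^ 80 ≤ N → 6 * Y ≤ N → N ≤ 12 * Y →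
    1 ≤ U → U ≤ Y → (∀ l, h l ≤ z) → ∀ M ⊆ Icc 1 Y, N / Real.log N ^ A ≤ M.card →
    (Real.log N ≤ z → ∑ t ∈ (range U ×ˢ M) ×ˢ (range U ×ˢ M), VV z (c2 h ((t.1.1 : ℤ) - t.1.2) ((t.2.1 : ℤ) - t.2.2)) ≤
      (1 + 12 * δ) * (U * M.card) ^ 2 * VV z (cneg h) ^ 2) →
    ∀ Λ : (Fin k → ℕ) → ℝ,
    (∀ d ∈ PD (Fin k) z R, |Λ d| ≤ Real.log N ^ B) → (∀ d, Λ d ≠ 0 → ∏ l, d l ≤ R) → 1 ≤ Lf z R Λ →
    (((Ioc (2 * Y) (4 * Y)).filter (fun n => U * M.card * VV z (cneg h) * Lf z R Λ / 2 <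
      |TL z R U M h Λ n - U * M.card * VV z (cneg h) * Lf z R Λ|)).card : ℝ) ≤ 104 * δ * Y := by
  obtain ⟨A', hA'⟩ : ∃ A', A' = 2 * A + 2 * (4 * k + 1) + 1 := ⟨_, rfl⟩
  obtain ⟨e1, he1⟩ := second_lin k A' B hk
  obtain ⟨e2, he2⟩ := first_lin k A' B hk
  refine ⟨max (max e1 e2) 1, fun E δ hδ hδ1 => ?_⟩
  obtain ⟨m1, h1⟩ := he1 E
  obtain ⟨m2, h2⟩ := he2 E
  obtain ⟨m4, h4⟩ := ev_L' (max 3 (24 / δ))
  obtain ⟨m5, h5⟩ := V_low_L k E hk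
  refine ⟨max (max m1 m2) (max m4 (max m5 3)), ?_⟩
  intro N hN z R Y U hz1 hz2 hR1 hR hY hY2 hU1 hUY hhz M hM hMc g3' Λ hΛ hs hQ
  have n1 : m1 ≤ N := le_trans (le_trans (le_max_left _ _) (le_max_left _ _)) hN
  have n2 : m2 ≤ N := le_trans (le_trans (le_max_right _ _) (le_max_left _ _)) hN
  have nn := le_trans (le_max_right _ _) hN
  have n4 : m4 ≤ N := le_trans (le_max_left _ _) nn
  have n5 : m5 ≤ N := le_trans (le_trans (le_max_left _ _) (le_max_right _ _)) nn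
  have hN3 : 3 ≤ N := le_trans (le_trans (le_max_right _ _) (le_max_right _ _)) nn
  have hN1 : 1 ≤ N := by omega
  have hN0 : (0 : ℝ) < N := by exact_mod_cast hN1
  have b4 := h4 N n4
  set L := Real.log N with hLd
  have hL3 : (3 : ℝ) ≤ L := le_trans (le_max_left _ _) b4
  have hLδ : 24 / δ ≤ L := le_trans (le_max_right _ _) b4
  have hL0 : 0 < L := by linarith
  have hL1 : 1 ≤ L := by linarith
  have hze1 : L ^ e1 ≤ z := (pow_le_pow_right₀ hL1 (le_trans (le_max_left _ _) (le_max_left _ _))).trans hz1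
  have hze2 : L ^ e2 ≤ z := (pow_le_pow_right₀ hL1 (le_trans (le_max_right _ _) (le_max_left _ _))).trans hz1
  have hzL : L ≤ z := (le_self_pow₀ hL1 (by
    have := le_max_right (max e1 e2) 1
    omega)).trans hz1
  have hz : 1 ≤ z := by
    have : (1 : ℝ) ≤ z := by linarith
    exact_mod_cast this
  have hVz := h5 N n5 z hz hz2 h hd
  have g1 := h1 N n1 z R Y U hze1 hz2 hR1 hR hY hUY h hinj hhz M hM Λ hΛ hs
  have g2 := h2 N n2 z R Y U hze2 hz2 hR1 hR hY hUY h hinj hhz Λ hΛ hs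
  have g3 := g3' hzL
  obtain ⟨V, hV⟩ : ∃ V, V = VV z (cneg h) := ⟨_, rfl⟩
  obtain ⟨Q, hQd⟩ : ∃ Q, Q = Lf z R Λ := ⟨_, rfl⟩
  rw [← hV] at hVz g2 g3 ⊢
  rw [← hQd] at g1 g2 hQ ⊢
  have hV0 : 0 < V := lt_of_lt_of_le (by positivity) hVz
  have hQ0 : 0 < Q := by linarith
  have hMc0 : (0 : ℝ) < M.card := lt_of_lt_of_le (by positivity) hMc
  have hU0 : (0 : ℝ) < U := by exact_mod_cast hU1
  obtain ⟨μ, hμ⟩ : ∃ μ, μ = U * M.card * V := ⟨_, rfl⟩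
  have hμ0 : 0 < μ := by rw [hμ]; positivity
  rw [← hμ]
  have hYr : (N : ℝ) / 12 ≤ Y := by
    rw [div_le_iff₀ (by norm_num)]
    have : (N : ℝ) ≤ 12 * Y := by exact_mod_cast hY2
    linarith
  have hY0 : (0 : ℝ) < Y := by linarith [show (0 : ℝ) < N / 12 by positivity]
  -- the second moment
  have s2 : ∑ n ∈ Ioc (2 * Y) (4 * Y), TL z R U M h Λ n ^ 2 ≤ 2 * Y * ((1 + 12 * δ) * μ ^ 2) * Q ^ 2 + U ^ 2 * N ^ 3 / L ^ A' := by
    have e1 : ∑ n ∈ Ioc (2 * Y) (4 * Y), TL z R U M h Λ n ^ 2 =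
        ∑ t ∈ (range U ×ˢ M) ×ˢ (range U ×ˢ M), ∑ n ∈ Ioc (2 * Y) (4 * Y), FL z R h Λ (n + t.1.1 - t.1.2) * FL z R h Λ (n + t.2.1 - t.2.2) := by
      rw [sum_comm]
      apply sum_congr rfl
      intro n _
      unfold TL
      rw [sum_prod_mul (range U ×ˢ M) (range U ×ˢ M) (fun t => FL z R h Λ (n + t.1 - t.2)) (fun t => FL z R h Λ (n + t.1 - t.2)), sq]
    rw [e1]
    have e2 : ∀ t ∈ (range U ×ˢ M) ×ˢ (range U ×ˢ M), ∑ n ∈ Ioc (2 * Y) (4 * Y), FL z R h Λ (n + t.1.1 - t.1.2) * FL z R h Λ (n + t.2.1 - t.2.2) ≤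
        2 * Y * Q ^ 2 * VV z (c2 h ((t.1.1 : ℤ) - t.1.2) ((t.2.1 : ℤ) - t.2.2)) +
        |∑ n ∈ Ioc (2 * Y) (4 * Y), FL z R h Λ (n + t.1.1 - t.1.2) * FL z R h Λ (n + t.2.1 - t.2.2) -
          2 * Y * VV z (c2 h ((t.1.1 : ℤ) - t.1.2) ((t.2.1 : ℤ) - t.2.2)) * (Q * Q)| := by
      intro t _
      have := le_abs_self (∑ n ∈ Ioc (2 * Y) (4 * Y), FL z R h Λ (n + t.1.1 - t.1.2) * FL z R h Λ (n + t.2.1 - t.2.2) -
          2 * Y * VV z (c2 h ((t.1.1 : ℤ) - t.1.2) ((t.2.1 : ℤ) - t.2.2)) * (Q * Q))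
      linarith
    refine (sum_le_sum e2).trans ?_
    rw [sum_add_distrib, ← mul_sum]
    apply add_le_add _ g1
    calc 2 * Y * Q ^ 2 * ∑ t ∈ (range U ×ˢ M) ×ˢ (range U ×ˢ M), VV z (c2 h ((t.1.1 : ℤ) - t.1.2) ((t.2.1 : ℤ) - t.2.2)) ≤
        2 * Y * Q ^ 2 * ((1 + 12 * δ) * (U * M.card) ^ 2 * V ^ 2) := mul_le_mul_of_nonneg_left g3 (by positivity)
      _ = _ := by rw [hμ]; ring
  -- the first moment
  have s1 : 2 * Y * μ * Q - U * M.card * (N / L ^ A') ≤ ∑ n ∈ Ioc (2 * Y) (4 * Y), TL z R U M h Λ n := by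
    unfold TL
    rw [sum_comm]
    have e1 : ∀ t ∈ range U ×ˢ M, 2 * Y * V * Q - N / L ^ A' ≤ ∑ n ∈ Ioc (2 * Y) (4 * Y), FL z R h Λ (n + t.1 - t.2) := by
      intro t ht
      rw [mem_product, mem_range] at ht
      have j1 := mem_Icc.1 (hM ht.2)
      have := (abs_le.1 (g2 t.1 t.2 ht.1 j1.1 j1.2)).1
      linarith
    refine le_trans (le_of_eq ?_) (sum_le_sum e1)
    rw [sum_const, nsmul_eq_mul, card_product, card_range, hμ]
    push_cast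
    ring
  -- the variance
  have hvar : ∑ n ∈ Ioc (2 * Y) (4 * Y), (TL z R U M h Λ n - μ * Q) ^ 2 ≤ 26 * δ * Y * (μ * Q) ^ 2 := by
    have e1 : ∑ n ∈ Ioc (2 * Y) (4 * Y), (TL z R U M h Λ n - μ * Q) ^ 2 =
        ∑ n ∈ Ioc (2 * Y) (4 * Y), TL z R U M h Λ n ^ 2 - 2 * (μ * Q) * ∑ n ∈ Ioc (2 * Y) (4 * Y), TL z R U M h Λ n + 2 * Y * (μ * Q) ^ 2 := by
      have e2 : ∀ n ∈ Ioc (2 * Y) (4 * Y), (TL z R U M h Λ n - μ * Q) ^ 2 = TL z R U M h Λ n ^ 2 - 2 * (μ * Q) * TL z R U M h Λ n + (μ * Q) ^ 2 := by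
        intro n _; ring
      rw [sum_congr rfl e2, sum_add_distrib, sum_sub_distrib, ← mul_sum, sum_const, Nat.card_Ioc, nsmul_eq_mul]
      have : 4 * Y - 2 * Y = 2 * Y := by omega
      rw [this]
      push_cast
      ring
    rw [e1]
    have s1' := mul_le_mul_of_nonneg_left s1 (show 0 ≤ 2 * (μ * Q) by positivity)
    have t1 : (U : ℝ) ^ 2 * N ^ 3 / L ^ A' ≤ δ * Y * (μ * Q) ^ 2 := by
      have q1 : (U : ℝ) * (N / L ^ A) * (1 / L ^ (4 * k + 1)) ≤ μ * Q := by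
        rw [hμ]
        calc (U : ℝ) * (N / L ^ A) * (1 / L ^ (4 * k + 1)) ≤ U * M.card * V := by gcongr
          _ = U * M.card * V * 1 := by ring
          _ ≤ U * M.card * V * Q := mul_le_mul_of_nonneg_left hQ (by positivity)
      have q2 : δ * (N / 12) * ((U : ℝ) * (N / L ^ A) * (1 / L ^ (4 * k + 1))) ^ 2 ≤ δ * Y * (μ * Q) ^ 2 := by gcongr
      refine le_trans ?_ q2
      have e3 : L ^ A' = (L ^ A) ^ 2 * (L ^ (4 * k + 1)) ^ 2 * L := by rw [hA']; ring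
      have e4 : (U : ℝ) ^ 2 * N ^ 3 / L ^ A' = (12 / δ) / L * (δ * (N / 12) * ((U : ℝ) * (N / L ^ A) * (1 / L ^ (4 * k + 1))) ^ 2) := by
        rw [e3]
        field_simp
      rw [e4]
      have e5 : (12 / δ) / L ≤ 1 := by
        rw [div_le_one hL0]
        refine le_trans ?_ hLδ
        gcongr
        norm_num
      calc _ ≤ 1 * (δ * ((N : ℝ) / 12) * ((U : ℝ) * (N / L ^ A) * (1 / L ^ (4 * k + 1))) ^ 2) := mul_le_mul_of_nonneg_right e5 (by positivity)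
        _ = _ := one_mul _
    have t2 : 2 * (μ * Q) * (U * M.card * (N / L ^ A')) ≤ δ * Y * (μ * Q) ^ 2 := by
      have q1 : 2 * (U * M.card * (N / L ^ A')) ≤ δ * Y * (μ * Q) := by
        have q2 : (U : ℝ) * M.card * (1 / L ^ (4 * k + 1)) ≤ μ * Q := by
          rw [hμ]
          calc (U : ℝ) * M.card * (1 / L ^ (4 * k + 1)) ≤ U * M.card * V := by gcongr
            _ = U * M.card * V * 1 := by ring
            _ ≤ U * M.card * V * Q := mul_le_mul_of_nonneg_left hQ (by positivity)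
        have q3 : δ * (N / 12) * ((U : ℝ) * M.card * (1 / L ^ (4 * k + 1))) ≤ δ * Y * (μ * Q) := by gcongr
        refine le_trans ?_ q3
        have e3 : L ^ A' = L ^ (2 * A) * L ^ (4 * k + 1) * L ^ (4 * k + 1) * L := by rw [hA']; ring
        have e4 : 2 * ((U : ℝ) * M.card * (N / L ^ A')) = (24 / δ) / L * (1 / (L ^ (2 * A) * L ^ (4 * k + 1))) * (δ * (N / 12) * ((U : ℝ) * M.card * (1 / L ^ (4 * k + 1)))) := by
          rw [e3]
          field_simp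
          ring
        rw [e4]
        have e5 : (24 / δ) / L ≤ 1 := by rw [div_le_one hL0]; exact hLδ
        have e6 : 1 / (L ^ (2 * A) * L ^ (4 * k + 1)) ≤ 1 := by
          rw [div_le_one (by positivity)]
          exact one_le_mul_of_one_le_of_one_le (one_le_pow₀ hL1) (one_le_pow₀ hL1)
        have e7 : (24 / δ) / L * (1 / (L ^ (2 * A) * L ^ (4 * k + 1))) ≤ 1 := mul_le_one₀ e5 (by positivity) e6
        calc _ ≤ 1 * (δ * ((N : ℝ) / 12) * ((U : ℝ) * M.card * (1 / L ^ (4 * k + 1)))) := mul_le_mul_of_nonneg_right e7 (by positivity)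
          _ = _ := one_mul _
      calc 2 * (μ * Q) * (U * M.card * (N / L ^ A')) = (μ * Q) * (2 * (U * M.card * (N / L ^ A'))) := by ring
        _ ≤ (μ * Q) * (δ * Y * (μ * Q)) := mul_le_mul_of_nonneg_left q1 (by positivity)
        _ = _ := by ring
    nlinarith
  have hmk := markov (Ioc (2 * Y) (4 * Y)) (fun n => (TL z R U M h Λ n - μ * Q) ^ 2) (fun n _ => sq_nonneg _) ((μ * Q / 2) ^ 2) (by positivity) _ hvar
    (fun n => μ * Q / 2 < |TL z R U M h Λ n - μ * Q|) (by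
      intro n _ hn
      rw [← sq_abs (TL z R U M h Λ n - μ * Q)]
      exact pow_le_pow_left₀ (by positivity) hn.le 2)
  refine hmk.trans (le_of_eq ?_)
  field_simp
  ring

open Classical in
/-- **the variance.** -/
theorem variance_lin (k A B : ℕ) (hk : 1 ≤ k) (h : Fin k → ℕ) (hinj : Function.Injective h) (hd : ∀ z, (1 / (4 * (k : ℝ))) ^ (4 * k) * Vz z ^ (4 * k) ≤ VV z (cneg h)) :
    ∃ E0 : ℕ, ∀ E : ℕ, ∀ δ : ℝ, 0 < δ → δ ≤ 1 → ∃ N0 : ℕ, ∀ N : ℕ, N0 ≤ N → ∀ z R Y U : ℕ,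
    Real.log N ^ E0 ≤ z → (z : ℝ) ≤ Real.log N ^ E → 1 ≤ R → R ^ 80 ≤ N → 6 * Y ≤ N → N ≤ 12 * Y →
    Real.log (Real.log (Real.log N)) ^ (2 * k ^ 3 + 1) ≤ U → 1 ≤ U → U ≤ Y → (∀ l, h l ≤ z) → ∀ M ⊆ Icc 1 Y, N / Real.log N ^ A ≤ M.card →
    ∀ Λ : (Fin k → ℕ) → ℝ,
    (∀ d ∈ PD (Fin k) z R, |Λ d| ≤ Real.log N ^ B) → (∀ d, Λ d ≠ 0 → ∏ l, d l ≤ R) → 1 ≤ Lf z R Λ →
    (((Ioc (2 * Y) (4 * Y)).filter (fun n => U * M.card * VV z (cneg h) * Lf z R Λ / 2 <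
      |TL z R U M h Λ n - U * M.card * VV z (cneg h) * Lf z R Λ|)).card : ℝ) ≤ 104 * δ * Y := by
  obtain ⟨E0, hE0⟩ := variance_lin0 k A B hk h hinj hd
  refine ⟨E0, fun E δ hδ hδ1 => ?_⟩
  obtain ⟨m1, h1⟩ := hE0 E δ hδ hδ1
  obtain ⟨m3, h3⟩ := sing_total k hk h hd A E δ hδ hδ1
  refine ⟨max m1 m3, ?_⟩
  intro N hN z R Y U hz1 hz2 hR1 hR hY hY2 hU hU1 hUY hhz M hM hMc Λ hΛ hs hQ
  exact h1 N (le_trans (le_max_left _ _) hN) z R Y U hz1 hz2 hR1 hR hY hY2 hU1 hUY hhz M hM hMc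
    (fun hzL => h3 N (le_trans (le_max_right _ _) hN) z Y U hzL hz2 hY hU hUY M hM hMc) Λ hΛ hs hQ

end Pool.Agent.L0h42.EL
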