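import Mathlib
import Pool.Agent.L0h42.EL.L4

/-! The prime part for the linear sieve sums. -/

set_option autoImplicit false
set_option linter.unusedSectionVars false

namespace Pool.Agent.L0h42.EL
open Finset
open Pool.Agent.L0h42.TB
open Pool.Agent.L0h42.EG hiding w_choice V_low_L total_gen sing_total variance_gen variance
open Pool.Agent.H373R2.T7

/-- the linear sieve function times the difference between the primes and their model -/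
noncomputable def DL {k : ℕ} (z R : ℕ) (h : Fin k → ℕ) (i : Fin k) (Λ : (Fin k → ℕ) → ℝ) (a : ℕ) : ℝ :=
  FL z R h Λ a * (pl (a + h i) - lamz z (a + h i))

section pp
variable {k : ℕ}

lemma FL_lamz (z R : ℕ) (h : Fin k → ℕ) (Λ : (Fin k → ℕ) → ℝ) (a : ℕ) (i : Fin k) :
    FL z R h Λ a * lamz z (a + h i) = (Vz z)⁻¹ * FL z R h Λ a := by
  classical
  unfold FL Gr
  by_cases hr : Rgh z (cneg h) a
  · have h1 : ∀ p ∈ pz z, ¬ p ∣ a + h i := by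
      intro p hp hd
      exact hr p hp ⟨i, (dvd_cneg h p a i).2 hd⟩
    unfold lamz
    rw [if_pos h1]
    ring
  · rw [if_neg hr]; ring

lemma FL_pl (z R : ℕ) (h : Fin k → ℕ) (i : Fin k) (Λ : (Fin k → ℕ) → ℝ) (a : ℕ) :
    FL z R h Λ a * pl (a + h i) = DL z R h i Λ a + (Vz z)⁻¹ * FL z R h Λ a := by
  rw [← FL_lamz z R h Λ a i]
  unfold DL
  ring

lemma DL_pol (z R : ℕ) (hR : 1 ≤ R) (h : Fin k → ℕ) (i : Fin k) (Λ : (Fin k → ℕ) → ℝ) (a : ℕ) :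
    DL z R h i Λ a = (Df z R h i (fun d => Λ d + 1 * o1 d) a - Df z R h i (fun d => Λ d + (-1) * o1 d) a) / 4 := by
  unfold DL Df FL
  rw [SS_shift z R hR, SS_shift z R hR]
  ring

lemma shift_bd {Λ : (Fin k → ℕ) → ℝ} {L : ℝ} {B : ℕ} (hL : 2 ≤ L) {s : ℝ} (hs : |s| ≤ 1) {d : Fin k → ℕ} (h : |Λ d| ≤ L ^ B) :
    |Λ d + s * o1 d| ≤ L ^ (B + 1) := by
  refine (abs_add_le _ _).trans ?_
  have h2 : |s * o1 d| ≤ 1 := by
    rw [abs_mul]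
    have h3 : |(o1 d : ℝ)| ≤ 1 := by unfold o1; split_ifs <;> simp
    exact mul_le_one₀ hs (abs_nonneg _) h3
  have q2 : 1 ≤ L ^ B := one_le_pow₀ (by linarith)
  rw [pow_succ]
  nlinarith

lemma shift_ne {Λ : (Fin k → ℕ) → ℝ} {R : ℕ} (hR : 1 ≤ R) {i : Fin k} (hs : ∀ d, Λ d ≠ 0 → ∏ l, d l ≤ R ∧ d i = 1) (s : ℝ) (d : Fin k → ℕ)
    (hd : Λ d + s * o1 d ≠ 0) : ∏ l, d l ≤ R ∧ d i = 1 := by
  by_cases h1 : d = fun _ => 1
  · rw [h1]; simp; omega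
  · apply hs
    unfold o1 at hd
    rwa [if_neg h1, mul_zero, add_zero] at hd

end pp

/-- **the prime part.** -/
theorem prime_lin (k A B : ℕ) (hk : 1 ≤ k) : ∃ E0 : ℕ, ∀ E : ℕ, ∃ N0 : ℕ, ∀ N : ℕ, N0 ≤ N → ∀ z R Y U : ℕ,
    Real.log N ^ E0 ≤ z → (z : ℝ) ≤ Real.log N ^ E → 1 ≤ R → R ^ 80 ≤ N → 6 * Y ≤ N → z ≤ Y → U ≤ Y →
    ∀ h : Fin k → ℕ, Function.Injective h → (∀ l, h l ≤ z) → ∀ M ⊆ Icc 1 Y, ∀ (i : Fin k) (Λ : (Fin k → ℕ) → ℝ),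
    (∀ d ∈ PD (Fin k) z R, |Λ d| ≤ Real.log N ^ B) → (∀ d, Λ d ≠ 0 → ∏ l, d l ≤ R ∧ d i = 1) →
    ∑ n ∈ Ioc (2 * Y) (4 * Y), |∑ t ∈ range U ×ˢ M, DL z R h i Λ (n + t.1 - t.2)| ≤ U * (N ^ 2 / Real.log N ^ A) := by
  obtain ⟨E0, hE0⟩ := prime_part k A (B + 1) hk
  refine ⟨E0, fun E => ?_⟩
  obtain ⟨N0, h0⟩ := hE0 E
  obtain ⟨n2, hn2⟩ := ev_L' 2
  refine ⟨max N0 n2, ?_⟩
  intro N hN z R Y U hz1 hz2 hR1 hR hY hzY hU h hinj hhz M hM i Λ hΛ hs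
  have hL2 := hn2 N (le_trans (le_max_right _ _) hN)
  have hp := h0 N (le_trans (le_max_left _ _) hN) z R Y U hz1 hz2 hR1 hR hY hzY hU h hinj hhz M hM i (fun d => Λ d + 1 * o1 d)
    (fun d hd => shift_bd hL2 (by simp) (hΛ d hd)) (fun d hd => shift_ne hR1 hs 1 d hd)
  have hm := h0 N (le_trans (le_max_left _ _) hN) z R Y U hz1 hz2 hR1 hR hY hzY hU h hinj hhz M hM i (fun d => Λ d + (-1) * o1 d)
    (fun d hd => shift_bd hL2 (by simp) (hΛ d hd)) (fun d hd => shift_ne hR1 hs (-1) d hd)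
  have hB0 : (0 : ℝ) ≤ U * (N ^ 2 / Real.log N ^ A) := le_trans (sum_nonneg fun _ _ => abs_nonneg _) hp
  have hterm : ∀ n ∈ Ioc (2 * Y) (4 * Y), |∑ t ∈ range U ×ˢ M, DL z R h i Λ (n + t.1 - t.2)| ≤
      (|∑ t ∈ range U ×ˢ M, Df z R h i (fun d => Λ d + 1 * o1 d) (n + t.1 - t.2)| +
       |∑ t ∈ range U ×ˢ M, Df z R h i (fun d => Λ d + (-1) * o1 d) (n + t.1 - t.2)|) / 4 := by
    intro n _
    rw [sum_congr rfl fun t _ => DL_pol z R hR1 h i Λ (n + t.1 - t.2), ← sum_div, sum_sub_distrib, abs_div, abs_of_pos (by norm_num : (0 : ℝ) < 4)]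
    exact div_le_div_of_nonneg_right (abs_sub _ _) (by norm_num)
  have hsum := sum_le_sum hterm
  rw [← sum_div, sum_add_distrib] at hsum
  linarith

/-- the prime part, one sum -/
theorem prime_one (k A B : ℕ) (hk : 1 ≤ k) : ∃ E0 : ℕ, ∀ E : ℕ, ∃ N0 : ℕ, ∀ N : ℕ, N0 ≤ N → ∀ z R : ℕ,
    Real.log N ^ E0 ≤ z → (z : ℝ) ≤ Real.log N ^ E → 1 ≤ R → R ^ 80 ≤ N →
    ∀ h : Fin k → ℕ, Function.Injective h → (∀ l, h l ≤ z) → ∀ (i : Fin k) (Λ : (Fin k → ℕ) → ℝ),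
    (∀ d ∈ PD (Fin k) z R, |Λ d| ≤ Real.log N ^ B) → (∀ d, Λ d ≠ 0 → ∏ l, d l ≤ R ∧ d i = 1) →
    ∀ y1 y2 : ℕ, z ≤ y1 → y1 ≤ y2 → y2 + z ≤ N →
    |∑ a ∈ Ioc y1 y2, DL z R h i Λ a| ≤ N / Real.log N ^ A := by
  obtain ⟨E0, hE0⟩ := fourier_small k A (B + 1) hk
  refine ⟨E0, fun E => ?_⟩
  obtain ⟨N0, h0⟩ := hE0 E
  obtain ⟨n2, hn2⟩ := ev_L' 2
  refine ⟨max N0 n2, ?_⟩
  intro N hN z R hz1 hz2 hR1 hR h hinj hhz i Λ hΛ hs y1 y2 hy1 hy hyN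
  have hL2 := hn2 N (le_trans (le_max_right _ _) hN)
  have conv : ∀ Λ' : (Fin k → ℕ) → ℝ, (∀ d ∈ PD (Fin k) z R, |Λ' d| ≤ Real.log N ^ (B + 1)) → (∀ d, Λ' d ≠ 0 → ∏ l, d l ≤ R ∧ d i = 1) →
      |∑ a ∈ Ioc y1 y2, Df z R h i Λ' a| ≤ N / Real.log N ^ A := by
    intro Λ' h1 h2
    have h3 := h0 N (le_trans (le_max_left _ _) hN) z R hz1 hz2 hR1 hR h hinj hhz i Λ' h1 h2 y1 y2 hy1 hy hyN 0
    refine le_trans (le_of_eq ?_) h3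
    have h4 : ∑ a ∈ Ioc y1 y2, (Gr z (cneg h) a * SS z R Λ' (cneg h) a ^ 2) •
      ((((pl (a + h i) - lamz z (a + h i) : ℝ)) : ℂ) * Pool.Agent.H807R2.Dav.ee (a * 0)) = ((∑ a ∈ Ioc y1 y2, Df z R h i Λ' a : ℝ) : ℂ) := by
      push_cast
      apply sum_congr rfl
      intro a _
      unfold Df
      rw [Complex.real_smul]
      have h5 : Pool.Agent.H807R2.Dav.ee ((a : ℝ) * 0) = 1 := by
        rw [mul_zero]
        unfold Pool.Agent.H807R2.Dav.ee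
        simp
      rw [h5]
      push_cast
      ring
    rw [h4, Complex.norm_real, Real.norm_eq_abs]
  have hp := conv (fun d => Λ d + 1 * o1 d) (fun d hd => shift_bd hL2 (by simp) (hΛ d hd)) (fun d hd => shift_ne hR1 hs 1 d hd)
  have hm := conv (fun d => Λ d + (-1) * o1 d) (fun d hd => shift_bd hL2 (by simp) (hΛ d hd)) (fun d hd => shift_ne hR1 hs (-1) d hd)
  have hB0 : (0 : ℝ) ≤ N / Real.log N ^ A := (abs_nonneg _).trans hp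
  rw [sum_congr rfl fun a _ => DL_pol z R hR1 h i Λ a, ← sum_div, sum_sub_distrib, abs_div, abs_of_pos (by norm_num : (0 : ℝ) < 4)]
  have h1 := abs_sub (∑ a ∈ Ioc y1 y2, Df z R h i (fun d => Λ d + 1 * o1 d) a) (∑ a ∈ Ioc y1 y2, Df z R h i (fun d => Λ d + (-1) * o1 d) a)
  rw [div_le_iff₀ (by norm_num)]
  linarith

/-- the first moment, one sum -/
theorem first_one (k A B : ℕ) (hk : 1 ≤ k) : ∃ E0 : ℕ, ∀ E : ℕ, ∃ N0 : ℕ, ∀ N : ℕ, N0 ≤ N → ∀ z R : ℕ,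
    Real.log N ^ E0 ≤ z → (z : ℝ) ≤ Real.log N ^ E → 1 ≤ R → R ^ 80 ≤ N →
    ∀ h : Fin k → ℕ, Function.Injective h → (∀ l, h l ≤ z) → ∀ Λ : (Fin k → ℕ) → ℝ,
    (∀ d ∈ PD (Fin k) z R, |Λ d| ≤ Real.log N ^ B) → (∀ d, Λ d ≠ 0 → ∏ l, d l ≤ R) → ∀ y1 y2 : ℕ, y1 ≤ y2 → y2 ≤ N →
    |∑ a ∈ Ioc y1 y2, FL z R h Λ a - ((y2 : ℝ) - y1) * VV z (cneg h) * Lf z R Λ| ≤ N / Real.log N ^ A := by
  classical
  obtain ⟨E0, hE0⟩ := setup k (B + 1) A hk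
  refine ⟨E0, fun E => ?_⟩
  obtain ⟨N0, h0⟩ := hE0 E
  obtain ⟨n2, hn2⟩ := ev_L' 2
  refine ⟨max N0 n2, ?_⟩
  intro N hN z R hz1 hz2 hR1 hR h hinj hhz Λ hΛ hs y1 y2 hy hyN
  obtain ⟨hz, hL1, hR2N, r, hr⟩ := h0 N (le_trans (le_max_left _ _) hN) z R hz1 hz2 hR1 hR
  have hL2 := hn2 N (le_trans (le_max_right _ _) hN)
  set L := Real.log N with hLd
  have hL0 : 0 < L := by linarith
  have hcard : Fintype.card (Fin k) = k := Fintype.card_fin k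
  have hRR : R ≤ R * R := Nat.le_mul_self R
  have hj4 : ∀ δ ∈ PD (Fin k) z R, |Λ δ| + 1 ≤ L ^ (B + 1) := by
    intro δ hδ
    have q1 := hΛ δ hδ
    have q2 : 1 ≤ L ^ B := one_le_pow₀ hL1
    rw [pow_succ]
    nlinarith
  have key := main_lin ({()} : Finset Unit) (fun _ => cneg h) z R y1 y2 N r k (R * R)
    hy hyN hcard.le hk hz hR1 Λ (L ^ (B + 1)) hj4 (fun d => ∏ l, d l ≤ R) hs (by simp; omega)
    (fun d hd => hd.trans hRR) 0 le_rfl (by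
      intro x hx hx1 hx2 hc
      rw [mem_product] at hx
      rw [sum_singleton, zero_mul, filter_eq_empty_iff.2, card_empty, Nat.cast_zero]
      intro n hn hh
      exact hc (hit_coprime hinj hhz hx.1 hx.2 hh))
  rw [hcard, sum_singleton, card_singleton] at key
  refine key.trans ?_
  have hRr : (1 : ℝ) ≤ R := by exact_mod_cast hR1
  have hlR0 : 0 ≤ Real.log R := Real.log_nonneg hRr
  refine le_trans ?_ hr
  apply mul_le_mul_of_nonneg_left _ (by positivity)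
  have q0 : (0 : ℝ) ≤ (k : ℝ) ^ 2 * (9 / z) := by positivity
  have q1 : (0 : ℝ) ≤ N := Nat.cast_nonneg _
  have q2 : (0 : ℝ) ≤ N * ((k : ℝ) ^ 2 * (9 / z)) := by positivity
  push_cast
  nlinarith

end Pool.Agent.L0h42.EL
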