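import Mathlib
import Pool.Agent.L0h42.EL.L5
import Pool.Agent.W308.PL.FLW

/-! The pair of forms `a`, `a + 2` and the lower bound weights. -/

set_option autoImplicit false
set_option linter.unusedSectionVars false

namespace Pool.Agent.L0h42.EL
open Finset
open Pool.Agent.L0h42.TB
open Pool.Agent.L0h42.EG hiding w_choice V_low_L total_gen sing_total variance_gen variance
open Pool.Agent.H373R2.T7

/-- the two shifts -/
def h2 : Fin 2 → ℕ := ![0, 2]

lemma h2_inj : Function.Injective h2 := by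
  intro a b hab
  fin_cases a <;> fin_cases b <;> simp_all [h2]

lemma h2_le (l : Fin 2) : h2 l ≤ 2 := by fin_cases l <;> simp [h2]

/-- weights on the second form -/
noncomputable def Λ2 (lam : ℕ → ℝ) (d : Fin 2 → ℕ) : ℝ := if d 0 = 1 then lam (d 1) else 0

lemma sum_PD2 (z R : ℕ) (F : (Fin 2 → ℕ) → ℝ) : ∑ d ∈ PD (Fin 2) z R, F d = ∑ x ∈ RR z R, ∑ y ∈ RR z R, F ![x, y] := by
  rw [← sum_product']
  symm
  apply sum_bij (fun (q : ℕ × ℕ) _ => (![q.1, q.2] : Fin 2 → ℕ))
  · intro q hq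
    rw [mem_product] at hq
    rw [mem_PD]
    intro x
    fin_cases x
    · exact hq.1
    · exact hq.2
  · intro q _ q' _ h
    have h0 := congrFun h 0
    have h1 := congrFun h 1
    simp at h0 h1
    exact Prod.ext h0 h1
  · intro d hd
    rw [mem_PD] at hd
    refine ⟨(d 0, d 1), mem_product.2 ⟨hd 0, hd 1⟩, ?_⟩
    ext x
    fin_cases x <;> rfl
  · intro q _
    rfl

lemma sum_Λ2 (z R : ℕ) (hR : 1 ≤ R) (lam : ℕ → ℝ) (F : (Fin 2 → ℕ) → ℝ) :
    ∑ d ∈ PD (Fin 2) z R, Λ2 lam d * F d = ∑ e ∈ RR z R, lam e * F ![1, e] := by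
  rw [sum_PD2, sum_eq_single 1]
  · apply sum_congr rfl
    intro e _
    unfold Λ2
    simp
  · intro x _ hx
    apply sum_eq_zero
    intro y _
    unfold Λ2
    simp [hx]
  · exact fun h => absurd (one_mem_RR hR) h

open Classical in
lemma SS_h2 (z R : ℕ) (hR : 1 ≤ R) (lam : ℕ → ℝ) (a : ℕ) :
    SS z R (Λ2 lam) (cneg h2) a = ∑ e ∈ RR z R, lam e * (if e ∣ a + 2 then 1 else 0) := by
  unfold SS
  rw [sum_Λ2 z R hR lam (fun d => if Hit (cneg h2) d a then 1 else 0)]
  apply sum_congr rfl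
  intro e _
  have : Hit (cneg h2) ![1, e] a ↔ e ∣ a + 2 := by
    unfold Hit
    rw [Fin.forall_fin_two]
    rw [dvd_cneg, dvd_cneg]
    simp [h2]
  simp only [this]

lemma Lf_h2 (z R : ℕ) (hR : 1 ≤ R) (lam : ℕ → ℝ) :
    Lf z R (Λ2 lam) = ∑ e ∈ RR z R, lam e * (1 / (e : ℝ)) := by
  unfold Lf
  rw [sum_Λ2 z R hR lam (fun d => ∏ x, (1 / (d x : ℝ)))]
  apply sum_congr rfl
  intro e _
  simp

lemma nu2 : nu (cneg h2) 2 ≤ 1 := by
  have : NeZero 2 := ⟨by norm_num⟩
  rw [nu_eq]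
  have h1 : (univ.image (fun x => ((cneg h2 x : ℤ) : ZMod 2))) ⊆ {0} := by
    intro y hy
    rw [mem_image] at hy
    obtain ⟨x, -, rfl⟩ := hy
    rw [mem_singleton]
    fin_cases x
    · simp [cneg, h2]
    · have : ((cneg h2 1 : ℤ) : ZMod 2) = ((-2 : ℤ) : ZMod 2) := by simp [cneg, h2]
      change ((cneg h2 1 : ℤ) : ZMod 2) = 0
      rw [this]
      decide
  exact (card_le_card h1).trans (by simp)

/-- the density of the pair is not too small -/
lemma V_low2 : ∀ z, (1 / (4 * ((2 : ℕ) : ℝ))) ^ (4 * 2) * Vz z ^ (4 * 2) ≤ VV z (cneg h2) := by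
  intro z
  have h1 : Vz z ^ (4 * 2) ≤ VV z (cneg h2) := by
    unfold Vz VV
    rw [← prod_pow]
    apply prod_le_prod
    · intro p hp
      have := one_sub_pos (mem_pz.1 hp).2
      positivity
    · intro p hp
      have hpp := (mem_pz.1 hp).2
      have hp0 : (0 : ℝ) < p := by exact_mod_cast hpp.pos
      have hx0 := one_sub_pos hpp
      have hx1 : 1 - 1 / (p : ℝ) ≤ 1 := by
        have : 0 ≤ 1 / (p : ℝ) := by positivity
        linarith
      rcases hpp.eq_two_or_odd with h2' | h2'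
      · subst h2'
        have h3 : (nu (cneg h2) 2 : ℝ) ≤ 1 := by exact_mod_cast nu2
        push_cast
        have : (nu (cneg h2) 2 : ℝ) / 2 ≤ 1 / 2 := by linarith
        norm_num
        linarith
      · have hp3 : 3 ≤ p := by
          have := hpp.two_le
          omega
        have hp3r : (3 : ℝ) ≤ p := by exact_mod_cast hp3
        have h3 : (nu (cneg h2) p : ℝ) ≤ 2 := by
          have := nu_le_card (cneg h2) p
          rw [Fintype.card_fin] at this
          exact_mod_cast this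
        have h4 : (nu (cneg h2) p : ℝ) / p ≤ 2 / p := div_le_div_of_nonneg_right h3 hp0.le
        obtain ⟨x, hx⟩ : ∃ x : ℝ, x = 1 / p := ⟨_, rfl⟩
        have hx3 : x ≤ 1 / 3 := by rw [hx]; exact one_div_le_one_div_of_le (by norm_num) hp3r
        have hxp : 0 < x := by rw [hx]; positivity
        have h5 : (2 : ℝ) / p = 2 * x := by rw [hx]; ring
        rw [← hx] at hx0 hx1 ⊢
        have h6 : (1 - x) ^ (4 * 2) ≤ (1 - x) ^ 4 := pow_le_pow_of_le_one hx0.le hx1 (by norm_num)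
        have h7 : (1 - x) ^ 4 ≤ 1 - 2 * x := by nlinarith [mul_pos hxp hxp, mul_pos (mul_pos hxp hxp) hxp, mul_nonneg hxp.le (sub_nonneg.2 hx3), mul_nonneg (mul_pos hxp hxp).le (sub_nonneg.2 hx3)]
        rw [h5] at h4
        exact h6.trans (h7.trans (sub_le_sub_left h4 1))
  have h2 : (1 / (4 * ((2 : ℕ) : ℝ))) ^ (4 * 2) ≤ 1 := by norm_num
  have h3 : (0 : ℝ) ≤ Vz z ^ (4 * 2) := by have := Vz_pos z; positivity
  calc _ ≤ 1 * Vz z ^ (4 * 2) := mul_le_mul_of_nonneg_right h2 h3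
    _ ≤ _ := by rw [one_mul]; exact h1

end Pool.Agent.L0h42.EL
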