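import Mathlib
import Pool.Agent.L0h42.EL.L6

/-! The lower bound weights (Brun-Hooley), from the starting files. -/

set_option autoImplicit false
set_option linter.unusedSectionVars false

namespace Pool.Agent.L0h42.EL
open Finset
open Pool.Agent.L0h42.TB
open Pool.Agent.L0h42.EG hiding w_choice V_low_L total_gen sing_total variance_gen variance
open Pool.Agent.H373R2.T7
open Pool.Agent.W23.PL (P1 xx DW Ev hat St_FLW)

lemma PVV_low (N B : ℕ) (ε : ℝ) : Vz N ≤ Pool.Agent.W23.PL.VV (P1 N B ε) := by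
  classical
  unfold Vz Pool.Agent.W23.PL.VV
  have hsub : P1 N B ε ⊆ pz N := by
    intro p hp
    unfold P1 at hp
    rw [mem_filter, mem_Icc] at hp
    exact mem_pz.2 ⟨hp.1.2, hp.2.1⟩
  rw [← prod_sdiff hsub]
  have h1 : ∏ p ∈ pz N \ P1 N B ε, (1 - 1 / (p : ℝ)) ≤ 1 := by
    apply prod_le_one
    · intro p hp
      exact (one_sub_pos (mem_pz.1 (mem_sdiff.1 hp).1).2).le
    · intro p _
      have : 0 ≤ 1 / (p : ℝ) := by positivity
      linarith
  have h2 : 0 ≤ ∏ p ∈ P1 N B ε, (1 - 1 / (p : ℝ)) := by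
    apply prod_nonneg
    intro p hp
    exact (one_sub_pos (mem_pz.1 (hsub hp)).2).le
  calc _ ≤ 1 * ∏ p ∈ P1 N B ε, (1 - 1 / (p : ℝ)) := mul_le_mul_of_nonneg_right h1 h2
    _ = _ := one_mul _

open Classical in
/-- **the lower bound weights.** -/
theorem low_weights : ∃ ε₁ : ℝ, 0 < ε₁ ∧ ε₁ ≤ 1 ∧ ∀ B : ℕ, 1 ≤ B → ∃ N0 : ℕ, ∀ N : ℕ, N0 ≤ N → ∃ (R : ℕ) (lam : ℕ → ℝ), 1 ≤ R ∧ R ^ 80 ≤ N ∧
    (∀ e, |lam e| ≤ Real.log N ^ 4) ∧ (∀ e, lam e ≠ 0 → e ≤ R) ∧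
    1 ≤ ∑ e ∈ RR (⌈Real.log N ^ B⌉₊ - 1) R, lam e * (1 / (e : ℝ)) ∧
    ∀ a : ℕ, ∑ e ∈ RR (⌈Real.log N ^ B⌉₊ - 1) R, lam e * (if e ∣ a + 2 then 1 else 0) ≤ Real.log N ^ 2 ∧
      (0 < ∑ e ∈ RR (⌈Real.log N ^ B⌉₊ - 1) R, lam e * (if e ∣ a + 2 then 1 else 0) →
        ∀ p : ℕ, p.Prime → p ≤ N → ⌈Real.log N ^ B⌉₊ - 1 < p → Real.log p / Real.log N < ε₁ → ¬ p ∣ a + 2) := by
  obtain ⟨εs, hεs, hF⟩ := Pool.Agent.W308.PL.FLW (1 / 81) 1 (by norm_num) one_pos
  obtain ⟨ε, hε⟩ : ∃ ε : ℝ, ε = min εs (1 / 4) := ⟨_, rfl⟩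
  have hε0 : 0 < ε := by rw [hε]; exact lt_min hεs (by norm_num)
  have hε4 : ε ≤ 1 / 4 := by rw [hε]; exact min_le_right _ _
  refine ⟨ε, hε0, by linarith, fun B hB => ?_⟩
  obtain ⟨n0, h0⟩ := hF ε hε0 (by rw [hε]; exact min_le_left _ _) B hB
  obtain ⟨C, hC1, hC⟩ := mertens_up
  obtain ⟨n1, h1⟩ := ev_L' (max 2 (2 * C))
  refine ⟨max (max n0 n1) 3, fun N hN => ?_⟩
  have hN3 : 3 ≤ N := le_trans (le_max_right _ _) hN
  have hLm := h1 N (le_trans (le_trans (le_max_right _ _) (le_max_left _ _)) hN)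
  obtain ⟨D, hD⟩ : ∃ D, D = ⌊(N : ℝ) ^ (1 / 81 : ℝ)⌋₊ := ⟨_, rfl⟩
  obtain ⟨th, dl, hth, hdl, hxx, hh1, hh2⟩ := h0 N (le_trans (le_trans (le_max_left _ _) (le_max_left _ _)) hN) D hD
  set L := Real.log N with hL
  have hL2 : 2 ≤ L := le_trans (le_max_left _ _) hLm
  have hLC : 2 * C ≤ L := le_trans (le_max_right _ _) hLm
  have hL0 : 0 < L := by linarith
  have hN1 : (1 : ℝ) ≤ N := by exact_mod_cast (by omega : 1 ≤ N)
  have hD1 : 1 ≤ D := by
    rw [hD, Nat.one_le_floor_iff]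
    exact Real.one_le_rpow hN1 (by norm_num)
  have hD80 : D ^ 80 ≤ N := by
    have g1 : (D : ℝ) ≤ (N : ℝ) ^ (1 / 81 : ℝ) := by rw [hD]; exact Nat.floor_le (by positivity)
    have g2 : (D : ℝ) ^ 80 ≤ N := by
      calc (D : ℝ) ^ 80 ≤ ((N : ℝ) ^ (1 / 81 : ℝ)) ^ 80 := pow_le_pow_left₀ (Nat.cast_nonneg _) g1 _
        _ = (N : ℝ) ^ ((1 / 81 : ℝ) * (80 : ℕ)) := by rw [← Real.rpow_natCast, ← Real.rpow_mul (by linarith)]
        _ ≤ (N : ℝ) ^ (1 : ℝ) := Real.rpow_le_rpow_of_exponent_le hN1 (by norm_num)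
        _ = N := Real.rpow_one _
    exact_mod_cast g2
  obtain ⟨z, hz⟩ : ∃ z, z = ⌈L ^ B⌉₊ - 1 := ⟨_, rfl⟩
  rw [← hz]
  have hzc : ∀ p : ℕ, p ≤ z ↔ (p : ℝ) < L ^ B := by
    intro p
    have h3 : 0 < ⌈L ^ B⌉₊ := Nat.ceil_pos.2 (by positivity)
    rw [← Nat.lt_ceil, hz]
    omega
  -- the supports
  have hsupp : ∀ t : ℕ → ℝ, DW (P1 N B ε) D L t → ∀ e, t e ≠ 0 → e ∈ RR z D := by
    intro t ht e he
    obtain ⟨s1, s2, s3⟩ := ht.supp e he
    rw [mem_RR]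
    refine ⟨⟨?_, s2⟩, s1, ?_⟩
    · by_contra hcon
      have : e = 0 := by omega
      rw [this] at s1
      exact absurd s1 not_squarefree_zero
    · intro p hp hpe
      obtain ⟨q1, q2⟩ := mem_pz.1 hp
      have q3 := s3 p q2 hpe
      unfold P1 at q3
      rw [mem_filter] at q3
      have q4 := (hzc p).1 q1
      linarith [q3.2.2.1]
  have hsum : ∀ t : ℕ → ℝ, DW (P1 N B ε) D L t → ∀ f : ℕ → ℝ, ∑ e ∈ Icc 1 D, t e * f e = ∑ e ∈ RR z D, t e * f e := by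
    intro t ht f
    symm
    apply sum_subset
    · intro e he
      rw [mem_RR] at he
      exact mem_Icc.2 he.1
    · intro e _ he
      have : t e = 0 := by
        by_contra hcon
        exact he (hsupp t ht e hcon)
      rw [this, zero_mul]
  have hdiff : ∀ f : ℕ → ℝ, ∑ e ∈ RR z D, (L ^ 2 * (th e - dl e)) * f e = L ^ 2 * (∑ e ∈ Icc 1 D, th e * f e - ∑ e ∈ Icc 1 D, dl e * f e) := by
    intro f
    rw [hsum th hth f, hsum dl hdl f, ← sum_sub_distrib, mul_sum]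
    apply sum_congr rfl
    intro e _
    ring
  refine ⟨D, fun e => L ^ 2 * (th e - dl e), hD1, hD80, ?_, ?_, ?_, ?_⟩
  · intro e
    have b1 := hth.bd e
    have b2 := hdl.bd e
    have b3 : |th e - dl e| ≤ L ^ 2 := by
      refine (abs_sub _ _).trans ?_
      nlinarith
    simp only
    rw [abs_mul, abs_of_nonneg (by positivity : (0 : ℝ) ≤ L ^ 2)]
    calc L ^ 2 * |th e - dl e| ≤ L ^ 2 * L ^ 2 := mul_le_mul_of_nonneg_left b3 (by positivity)
      _ = _ := by ring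
  · intro e he
    simp only at he
    have h3 : th e ≠ 0 ∨ dl e ≠ 0 := by
      by_contra hcon
      push Not at hcon
      apply he
      rw [hcon.1, hcon.2]
      ring
    rcases h3 with h3 | h3
    · exact (hth.supp e h3).2.1
    · exact (hdl.supp e h3).2.1
  · rw [hdiff (fun e => 1 / (e : ℝ))]
    have e1 : ∑ e ∈ Icc 1 D, th e * (1 / (e : ℝ)) = hat th D := by
      unfold hat
      apply sum_congr rfl
      intro e _; ring
    have e2 : ∑ e ∈ Icc 1 D, dl e * (1 / (e : ℝ)) = hat dl D := by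
      unfold hat
      apply sum_congr rfl
      intro e _; ring
    rw [e1, e2]
    have hexp : Real.exp (-(1 / ε)) ≤ 1 / 4 := by
      have g1 : 4 ≤ 1 / ε := by
        rw [le_div_iff₀ hε0]
        linarith
      have g2 : Real.exp (-(1 / ε)) ≤ Real.exp (-4) := Real.exp_le_exp.2 (by linarith)
      have g3 : Real.exp (-4) ≤ 1 / 4 := by
        rw [Real.exp_neg, inv_eq_one_div]
        apply one_div_le_one_div_of_le (by norm_num)
        have := Real.add_one_le_exp (4 : ℝ)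
        linarith
      exact g2.trans g3
    obtain ⟨V, hV⟩ : ∃ V, V = Pool.Agent.W23.PL.VV (P1 N B ε) := ⟨_, rfl⟩
    rw [← hV] at hh1 hh2
    have hVl : 1 / (C * L) ≤ V := by
      rw [hV]
      refine le_trans ?_ (PVV_low N B ε)
      rw [one_div]
      exact inv_le_of_inv_le₀ (Vz_pos N) (hC N hN3)
    have hC0 : (0 : ℝ) < C := by exact_mod_cast hC1
    have hV0 : 0 < V := lt_of_lt_of_le (by positivity) hVl
    have g1 : |hat th D - V| ≤ 1 / 4 * V := hh1.trans (mul_le_mul_of_nonneg_right hexp hV0.le)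
    have g2 : |hat dl D| ≤ 1 / 4 * V := hh2.trans (mul_le_mul_of_nonneg_right hexp hV0.le)
    have g3 := (abs_le.1 g1).1
    have g4 := (abs_le.1 g2).2
    have g5 : 1 / (C * L) / 2 ≤ hat th D - hat dl D := by linarith
    calc (1 : ℝ) ≤ L / (2 * C) := by rw [le_div_iff₀ (by positivity)]; linarith
      _ = L ^ 2 * (1 / (C * L) / 2) := by field_simp
      _ ≤ _ := mul_le_mul_of_nonneg_left g5 (by positivity)
  · intro a
    have e0 : ∑ e ∈ RR z D, (L ^ 2 * (th e - dl e)) * (if e ∣ a + 2 then 1 else 0) =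
        L ^ 2 * (Ev th D ((a : ℤ) + 2) - Ev dl D ((a : ℤ) + 2)) := by
      rw [hdiff (fun e => if e ∣ a + 2 then (1 : ℝ) else 0)]
      unfold Ev
      have hc : ∀ e : ℕ, ((e : ℤ) ∣ (a : ℤ) + 2) ↔ e ∣ a + 2 := by
        intro e
        constructor
        · intro h; exact_mod_cast h
        · intro h; exact_mod_cast h
      simp only [hc]
    rw [e0]
    have x1 := hxx ((a : ℤ) + 2)
    have x2 : Ev th D ((a : ℤ) + 2) - Ev dl D ((a : ℤ) + 2) ≤ xx (P1 N B ε) ((a : ℤ) + 2) := by linarith [x1.2]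
    have x3 : xx (P1 N B ε) ((a : ℤ) + 2) ≤ 1 := by unfold xx; split_ifs <;> norm_num
    constructor
    · calc L ^ 2 * (Ev th D ((a : ℤ) + 2) - Ev dl D ((a : ℤ) + 2)) ≤ L ^ 2 * 1 := mul_le_mul_of_nonneg_left (x2.trans x3) (by positivity)
        _ = _ := mul_one _
    · intro hpos p hp hpN hpz hpt hpd
      have x4 : 0 < xx (P1 N B ε) ((a : ℤ) + 2) := by
        have : 0 < Ev th D ((a : ℤ) + 2) - Ev dl D ((a : ℤ) + 2) := (pos_iff_pos_of_mul_pos hpos).1 (by positivity)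
        linarith
      unfold xx at x4
      by_cases h5 : ∀ q ∈ P1 N B ε, ¬ (q : ℤ) ∣ (a : ℤ) + 2
      · apply h5 p _ (by exact_mod_cast hpd)
        unfold P1
        rw [mem_filter, mem_Icc]
        refine ⟨⟨hp.one_lt.le, hpN⟩, hp, ?_, hpt⟩
        by_contra hcon
        push Not at hcon
        have := (hzc p).2 hcon
        omega
      · rw [if_neg h5] at x4
        exact lt_irrefl 0 x4

end Pool.Agent.L0h42.EL
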