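import Mathlib
import Pool.Agent.L0h42.EL.L7

/-! Almost twin primes after the differences with an arbitrary set. -/

set_option autoImplicit false
set_option linter.unusedSectionVars false

namespace Pool.Agent.L0h42.EL
open Finset
open Pool.Agent.L0h42.TB
open Pool.Agent.L0h42.EG hiding w_choice V_low_L total_gen sing_total variance_gen variance
open Pool.Agent.H373R2.T7

/-- `q` is prime, and `q + 2` has at most `r` prime factors, all of them large -/
def AT (r q : ℕ) : Prop := q.Prime ∧ (q + 2).primeFactorsList.length ≤ r ∧ ∀ p : ℕ, p.Prime → p ∣ q + 2 → q < p ^ r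

/-- rough numbers have few prime factors -/
lemma few_factors (N m : ℕ) (ε : ℝ) (hε : 0 < ε) (r : ℕ) (hr : 1 / ε ≤ r) (hN : 2 ≤ N) (hm : 1 ≤ m) (hmN : m ≤ N)
    (h : ∀ p : ℕ, p.Prime → p ∣ m → ε * Real.log N ≤ Real.log p) : m.primeFactorsList.length ≤ r := by
  have hL : 0 < Real.log N := Real.log_pos (by exact_mod_cast (by omega : 1 < N))
  have h1 : Real.log m = (m.primeFactorsList.map (fun p : ℕ => Real.log (p : ℝ))).sum := by
    have h2 : (m.primeFactorsList.map (fun p : ℕ => Real.log (p : ℝ))).sum = Real.log ((m.primeFactorsList.map (fun p : ℕ => (p : ℝ))).prod) := by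
      rw [Real.log_list_prod]
      · rw [List.map_map]; rfl
      · intro x hx
        rw [List.mem_map] at hx
        obtain ⟨p, hp, rfl⟩ := hx
        have := (Nat.prime_of_mem_primeFactorsList hp).pos
        positivity
    rw [h2]
    congr 1
    have h3 := Nat.prod_primeFactorsList (show m ≠ 0 by omega)
    conv_lhs => rw [← h3]
    exact Nat.cast_list_prod _
  have h4 : (m.primeFactorsList.length : ℝ) * (ε * Real.log N) ≤ (m.primeFactorsList.map (fun p : ℕ => Real.log (p : ℝ))).sum := by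
    have h5 := List.card_nsmul_le_sum (m.primeFactorsList.map (fun p : ℕ => Real.log (p : ℝ))) (ε * Real.log N) (by
      intro x hx
      rw [List.mem_map] at hx
      obtain ⟨p, hp, rfl⟩ := hx
      exact h p (Nat.prime_of_mem_primeFactorsList hp) (Nat.dvd_of_mem_primeFactorsList hp))
    rw [List.length_map, nsmul_eq_mul] at h5
    exact h5
  rw [← h1] at h4
  have h6 : Real.log m ≤ Real.log N := Real.log_le_log (by exact_mod_cast hm) (by exact_mod_cast hmN)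
  have h7 : (m.primeFactorsList.length : ℝ) * ε ≤ 1 := by
    have : (m.primeFactorsList.length : ℝ) * ε * Real.log N ≤ 1 * Real.log N := by linarith
    exact le_of_mul_le_mul_right this hL
  have h8 : (m.primeFactorsList.length : ℝ) ≤ r := by
    refine le_trans ?_ hr
    rw [le_div_iff₀ hε]
    exact h7
  exact_mod_cast h8

/-- data of the lower bound weights -/
structure Wt (ε : ℝ) (B N R : ℕ) (lam : ℕ → ℝ) : Prop where
  R1 : 1 ≤ R
  R80 : R ^ 80 ≤ N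
  bd : ∀ e, |lam e| ≤ Real.log N ^ 4
  supp : ∀ e, lam e ≠ 0 → e ≤ R
  low : 1 ≤ ∑ e ∈ RR (⌈Real.log N ^ B⌉₊ - 1) R, lam e * (1 / (e : ℝ))
  up : ∀ a : ℕ, SS (⌈Real.log N ^ B⌉₊ - 1) R (Λ2 lam) (cneg h2) a ≤ Real.log N ^ 2
  rough : ∀ a : ℕ, 0 < SS (⌈Real.log N ^ B⌉₊ - 1) R (Λ2 lam) (cneg h2) a → ∀ p : ℕ, p.Prime → p ≤ N → ⌈Real.log N ^ B⌉₊ - 1 < p →
    Real.log p / Real.log N < ε → ¬ p ∣ a + 2

theorem Wt_exists : ∃ ε : ℝ, 0 < ε ∧ ε ≤ 1 ∧ ∀ B : ℕ, 1 ≤ B → ∃ N0 : ℕ, ∀ N : ℕ, N0 ≤ N → ∃ (R : ℕ) (lam : ℕ → ℝ), Wt ε B N R lam := by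
  classical
  obtain ⟨ε, h1, h2', h3⟩ := low_weights
  refine ⟨ε, h1, h2', fun B hB => ?_⟩
  obtain ⟨N0, h0⟩ := h3 B hB
  refine ⟨N0, fun N hN => ?_⟩
  obtain ⟨R, lam, a1, a2, a3, a4, a5, a6⟩ := h0 N hN
  refine ⟨R, lam, a1, a2, a3, a4, a5, ?_, ?_⟩
  · intro a
    rw [SS_h2 _ R a1]
    exact (a6 a).1
  · intro a
    rw [SS_h2 _ R a1]
    exact (a6 a).2

lemma AT_of {ε : ℝ} (hε : 0 < ε) {B N R : ℕ} {lam : ℕ → ℝ} (hW : Wt ε B N R lam) {r : ℕ} (hr : 1 / ε ≤ r) (hN : 2 ≤ N) {a : ℕ} (ha : a + 2 ≤ N)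
    (h : 0 < FL (⌈Real.log N ^ B⌉₊ - 1) R h2 (Λ2 lam) a * pl (a + h2 0)) : AT r a := by
  classical
  obtain ⟨z, hz⟩ : ∃ z, z = ⌈Real.log N ^ B⌉₊ - 1 := ⟨_, rfl⟩
  have hro := hW.rough a
  rw [← hz] at h hro
  have hL : 0 < Real.log N := Real.log_pos (by exact_mod_cast (by omega : 1 < N))
  have hpl : 0 ≤ pl (a + h2 0) := pl_nonneg _
  have h20 : a + h2 0 = a := by simp [h2]
  have hpl1 : pl (a + h2 0) ≠ 0 := right_ne_zero_of_mul h.ne'
  have hprime : a.Prime := by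
    rw [h20] at hpl1
    unfold pl at hpl1
    by_contra hcon
    rw [if_neg hcon] at hpl1
    exact hpl1 rfl
  have hFL : 0 < FL z R h2 (Λ2 lam) a := by
    by_contra hcon
    push Not at hcon
    have := mul_nonpos_of_nonpos_of_nonneg hcon hpl
    linarith
  unfold FL at hFL
  have hGr : Rgh z (cneg h2) a := by
    by_contra hcon
    unfold Gr at hFL
    rw [if_neg hcon, zero_mul] at hFL
    exact lt_irrefl 0 hFL
  have hSS : 0 < SS z R (Λ2 lam) (cneg h2) a := by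
    unfold Gr at hFL
    rw [if_pos hGr, one_mul] at hFL
    exact hFL
  have hbig : ∀ p : ℕ, p.Prime → p ∣ a + 2 → ε * Real.log N ≤ Real.log p := by
    intro p hp hpd
    have hpN : p ≤ N := (Nat.le_of_dvd (by omega) hpd).trans ha
    have hpz : z < p := by
      by_contra hcon
      push Not at hcon
      apply hGr p (mem_pz.2 ⟨hcon, hp⟩)
      refine ⟨1, (dvd_cneg h2 p a 1).2 ?_⟩
      simpa [h2] using hpd
    by_contra hcon
    push Not at hcon
    exact hro hSS p hp hpN hpz (by rw [div_lt_iff₀ hL]; exact hcon) hpd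
  refine ⟨hprime, few_factors N (a + 2) ε hε r hr hN (by omega) ha hbig, ?_⟩
  intro p hp hpd
  have h1 := hbig p hp hpd
  have h3 : Real.log N ≤ Real.log ((p : ℝ) ^ r) := by
    rw [Real.log_pow]
    have h4 : 1 ≤ r * ε := by
      rw [div_le_iff₀ hε] at hr
      exact hr
    calc Real.log N = 1 * Real.log N := by ring
      _ ≤ (r * ε) * Real.log N := mul_le_mul_of_nonneg_right h4 hL.le
      _ = r * (ε * Real.log N) := by ring
      _ ≤ r * Real.log p := mul_le_mul_of_nonneg_left h1 (Nat.cast_nonneg _)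
  have hp0 : (0 : ℝ) < p := by exact_mod_cast hp.pos
  have h5 : (N : ℝ) ≤ (p : ℝ) ^ r := (Real.log_le_log_iff (by exact_mod_cast (by omega : 0 < N)) (by positivity)).1 h3
  have h6 : N ≤ p ^ r := by exact_mod_cast h5
  omega

lemma FLpl_up {ε : ℝ} {B N R : ℕ} {lam : ℕ → ℝ} (hW : Wt ε B N R lam) (hN : 1 ≤ N) {a : ℕ} (ha : a ≤ N) :
    FL (⌈Real.log N ^ B⌉₊ - 1) R h2 (Λ2 lam) a * pl (a + h2 0) ≤ Real.log N ^ 2 * Real.log N := by
  have h20 : a + h2 0 = a := by simp [h2]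
  have hL : 0 ≤ Real.log N := Real.log_nonneg (by exact_mod_cast hN)
  have h1 : pl (a + h2 0) ≤ Real.log N := by rw [h20]; exact pl_le_log ha hN
  have h3 : FL (⌈Real.log N ^ B⌉₊ - 1) R h2 (Λ2 lam) a ≤ Real.log N ^ 2 := by
    unfold FL
    have g1 := hW.up a
    have g2 := Gr_nonneg (⌈Real.log N ^ B⌉₊ - 1) (cneg h2) a
    have g3 := Gr_le_one (⌈Real.log N ^ B⌉₊ - 1) (cneg h2) a
    calc _ ≤ Gr (⌈Real.log N ^ B⌉₊ - 1) (cneg h2) a * Real.log N ^ 2 := mul_le_mul_of_nonneg_left g1 g2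
      _ ≤ 1 * Real.log N ^ 2 := mul_le_mul_of_nonneg_right g3 (by positivity)
      _ = _ := one_mul _
  calc _ ≤ Real.log N ^ 2 * pl (a + h2 0) := mul_le_mul_of_nonneg_right h3 (pl_nonneg _)
    _ ≤ _ := mul_le_mul_of_nonneg_left h1 (by positivity)

lemma Λ2_bd {lam : ℕ → ℝ} {L : ℝ} {b : ℕ} (hL : 0 ≤ L) (h : ∀ e, |lam e| ≤ L ^ b) (d : Fin 2 → ℕ) : |Λ2 lam d| ≤ L ^ b := by
  unfold Λ2
  split_ifs
  · exact h _
  · rw [abs_zero]; positivity

lemma Λ2_supp {lam : ℕ → ℝ} {R : ℕ} (h : ∀ e, lam e ≠ 0 → e ≤ R) (d : Fin 2 → ℕ) (hd : Λ2 lam d ≠ 0) : ∏ l, d l ≤ R ∧ d 0 = 1 := by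
  unfold Λ2 at hd
  by_cases h0 : d 0 = 1
  · rw [if_pos h0] at hd
    refine ⟨?_, h0⟩
    rw [Fin.prod_univ_two, h0, one_mul]
    exact h _ hd
  · rw [if_neg h0] at hd
    exact absurd rfl hd

end Pool.Agent.L0h42.EL
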