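import Mathlib
import Pool.Agent.L0h42.EL.L8

/-! Almost twin primes after the differences with an arbitrary set: the core. -/

set_option autoImplicit false
set_option linter.unusedSectionVars false

namespace Pool.Agent.L0h42.EL
open Finset
open Pool.Agent.L0h42.TB
open Pool.Agent.L0h42.EG hiding w_choice V_low_L total_gen sing_total variance_gen variance
open Pool.Agent.H373R2.T7

set_option maxHeartbeats 4000000 in
open Classical in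
/-- **the core.** -/
theorem core2 {ε : ℝ} (hε : 0 < ε) (hW : ∀ B : ℕ, 1 ≤ B → ∃ N0 : ℕ, ∀ N : ℕ, N0 ≤ N → ∃ (R : ℕ) (lam : ℕ → ℝ), Wt ε B N R lam)
    (r : ℕ) (hr : 1 / ε ≤ r) (A : ℕ) (δ : ℝ) (hδ : 0 < δ) (hδ1 : δ ≤ 1) : ∃ N0 : ℕ, ∀ N : ℕ, N0 ≤ N → ∀ Y U : ℕ,
    6 * Y ≤ N → N ≤ 12 * Y → Real.log (Real.log (Real.log N)) ^ (2 * 2 ^ 3 + 1) ≤ U → 1 ≤ U → U ≤ Y →
    ∀ M ⊆ Icc 1 Y, N / Real.log N ^ A ≤ M.card →
    (((Ioc (2 * Y) (4 * Y)).filter (fun n => ∀ u < U, ∀ j ∈ M, ¬ AT r (n + u - j))).card : ℝ) ≤ δ * Y := by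
  obtain ⟨δ', hδ'⟩ : ∃ δ' : ℝ, δ' = δ / 208 := ⟨_, rfl⟩
  have hδ'0 : 0 < δ' := by rw [hδ']; positivity
  have hδ'1 : δ' ≤ 1 := by rw [hδ']; linarith
  obtain ⟨A1, hA1⟩ : ∃ A1, A1 = A + (4 * 2 + 1) + 1 := ⟨_, rfl⟩
  obtain ⟨e0, hE0⟩ := variance_lin 2 A 4 (by norm_num) h2 h2_inj V_low2
  obtain ⟨e1, hE1⟩ := prime_lin 2 A1 4 (by norm_num)
  obtain ⟨E0, hE0d⟩ : ∃ E0, E0 = max e0 e1 + 1 := ⟨_, rfl⟩
  obtain ⟨m0, h0⟩ := hE0 (E0 + 1) δ' hδ'0 hδ'1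
  obtain ⟨m1, h1⟩ := hE1 (E0 + 1)
  obtain ⟨m2, hm2⟩ := hW (E0 + 1) (by omega)
  obtain ⟨m4, h4⟩ := ev_L' (max 8 (48 / δ))
  obtain ⟨m5, h5⟩ := ev_log' (E0 + 1) 28
  obtain ⟨m6, h6⟩ := V_low_L 2 (E0 + 1) (by norm_num)
  refine ⟨max (max (max m0 m1) m2) (max m4 (max m5 (max m6 16))), ?_⟩
  intro N hN Y U hY1 hY2 hU hU1 hUY M hM hMc
  have n0 : m0 ≤ N := le_trans (le_trans (le_trans (le_max_left _ _) (le_max_left _ _)) (le_max_left _ _)) hN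
  have n1 : m1 ≤ N := le_trans (le_trans (le_trans (le_max_right _ _) (le_max_left _ _)) (le_max_left _ _)) hN
  have n2 : m2 ≤ N := le_trans (le_trans (le_max_right _ _) (le_max_left _ _)) hN
  have nn := le_trans (le_max_right _ _) hN
  have n4 : m4 ≤ N := le_trans (le_max_left _ _) nn
  have n5 : m5 ≤ N := le_trans (le_trans (le_max_left _ _) (le_max_right _ _)) nn
  have nn' := le_trans (le_max_right m5 _) (le_trans (le_max_right _ _) nn)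
  have n6 : m6 ≤ N := le_trans (le_max_left _ _) nn'
  have hN16 : 16 ≤ N := le_trans (le_max_right _ _) nn'
  have hN0 : (0 : ℝ) < N := by exact_mod_cast (show 0 < N by omega)
  have b4 := h4 N n4
  have b5 := h5 N n5
  have hvar := h0 N n0
  have hpp := h1 N n1
  obtain ⟨R, lam, hWt⟩ := hm2 N n2
  have hVl := h6 N n6
  set L := Real.log N with hL
  have hL8 : 8 ≤ L := le_trans (le_max_left _ _) b4
  have l2 : 48 / δ ≤ L := le_trans (le_max_right _ _) b4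
  have hL1 : 1 ≤ L := by linarith
  have hL0 : 0 < L := by linarith
  -- the parameter `z`
  obtain ⟨z, hz⟩ : ∃ z, z = ⌈L ^ (E0 + 1)⌉₊ - 1 := ⟨_, rfl⟩
  have hzc : (z : ℝ) + 1 = (⌈L ^ (E0 + 1)⌉₊ : ℝ) := by
    have h3 : 0 < ⌈L ^ (E0 + 1)⌉₊ := Nat.ceil_pos.2 (by positivity)
    have : z + 1 = ⌈L ^ (E0 + 1)⌉₊ := by omega
    exact_mod_cast this
  have hz2' : (z : ℝ) ≤ L ^ (E0 + 1) := by
    have := (Nat.ceil_lt_add_one (show 0 ≤ L ^ (E0 + 1) by positivity)).le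
    linarith
  have hz1 : L ^ E0 ≤ z := by
    have g1 : L ^ (E0 + 1) ≤ z + 1 := by rw [hzc]; exact Nat.le_ceil _
    have g2 : 1 ≤ L ^ E0 := one_le_pow₀ hL1
    rw [pow_succ] at g1
    nlinarith
  have hze0 : L ^ e0 ≤ z := (pow_le_pow_right₀ hL1 (by have := le_max_left e0 e1; omega)).trans hz1
  have hze1 : L ^ e1 ≤ z := (pow_le_pow_right₀ hL1 (by have := le_max_right e0 e1; omega)).trans hz1
  have hzL : L ≤ z := (le_self_pow₀ hL1 (by omega)).trans hz1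
  have hz8 : 8 ≤ z := by
    have : (8 : ℝ) ≤ z := by linarith
    exact_mod_cast this
  have hhz : ∀ l, h2 l ≤ z := fun l => (h2_le l).trans (by omega)
  have hsq : √(N : ℝ) ≤ N := by
    rw [Real.sqrt_le_left (by positivity)]
    have : (1 : ℝ) ≤ N := by exact_mod_cast (show 1 ≤ N by omega)
    nlinarith
  have hYr : (N : ℝ) ≤ 12 * Y := by exact_mod_cast hY2
  have hY0 : (0 : ℝ) < Y := by linarith
  have hzY : z ≤ Y := by
    have g1 : (28 : ℝ) * z ≤ N := by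
      calc (28 : ℝ) * z ≤ 28 * L ^ (E0 + 1) := by linarith
        _ ≤ √N := b5
        _ ≤ N := hsq
    have g2 : 28 * z ≤ N := by exact_mod_cast g1
    omega
  have hY2' : 8 ≤ Y := by omega
  have hΛ : ∀ d ∈ PD (Fin 2) z R, |Λ2 lam d| ≤ L ^ 4 := fun d _ => Λ2_bd hL0.le hWt.bd d
  have hsi : ∀ d, Λ2 lam d ≠ 0 → ∏ l, d l ≤ R ∧ d 0 = 1 := fun d hd => Λ2_supp hWt.supp d hd
  have hs : ∀ d, Λ2 lam d ≠ 0 → ∏ l, d l ≤ R := fun d hd => (hsi d hd).1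
  obtain ⟨Q, hQd⟩ : ∃ Q, Q = Lf z R (Λ2 lam) := ⟨_, rfl⟩
  have hQ : 1 ≤ Q := by
    rw [hQd, Lf_h2 z R hWt.R1, hz]
    exact hWt.low
  have hv1 : 1 ≤ (Vz z)⁻¹ := (one_le_inv₀ (Vz_pos z)).2 (Vz_le_one z)
  -- the density
  obtain ⟨V, hV⟩ : ∃ V, V = VV z (cneg h2) := ⟨_, rfl⟩
  have hVlow : 1 / L ^ (4 * 2 + 1) ≤ V := by rw [hV]; exact hVl z (by omega) hz2' h2 V_low2
  have hV0 : 0 < V := lt_of_lt_of_le (by positivity) hVlow
  have hU0 : (0 : ℝ) < U := by exact_mod_cast hU1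
  have hMc0 : (0 : ℝ) < M.card := lt_of_lt_of_le (by positivity) hMc
  obtain ⟨μ, hμ⟩ : ∃ μ, μ = U * M.card * V * Q := ⟨_, rfl⟩
  have hμ0 : 0 < μ := by rw [hμ]; positivity
  -- the exceptional sets
  have x0 := hvar z R Y U hze0 hz2' hWt.R1 hWt.R80 hY1 hY2 hU hU1 hUY hhz M hM hMc (Λ2 lam) hΛ hs (by rw [← hQd]; exact hQ)
  rw [← hV, ← hQd, ← hμ] at x0
  obtain ⟨Er, hEr⟩ : ∃ Er : ℕ → ℝ, Er = fun n => |∑ t ∈ range U ×ˢ M, DL z R h2 0 (Λ2 lam) (n + t.1 - t.2)| := ⟨_, rfl⟩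
  have hEr0 : ∀ n ∈ Ioc (2 * Y) (4 * Y), 0 ≤ Er n := fun n _ => by rw [hEr]; exact abs_nonneg _
  have hErS : ∑ n ∈ Ioc (2 * Y) (4 * Y), Er n ≤ U * (N ^ 2 / L ^ A1) := by
    rw [hEr]
    exact hpp z R Y U hze1 hz2' hWt.R1 hWt.R80 hY1 hzY hUY h2 h2_inj hhz M hM 0 (Λ2 lam) hΛ hsi
  have xE := markov (Ioc (2 * Y) (4 * Y)) Er hEr0 (μ / 2) (by positivity) _ hErS (fun n => μ / 2 ≤ Er n) (fun _ _ h => h)
  have xE' : (U * (N ^ 2 / L ^ A1)) / (μ / 2) ≤ 104 * δ' * Y := by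
    rw [div_le_iff₀ (by positivity)]
    have q1 : (U : ℝ) * (N / L ^ A) * (1 / L ^ (4 * 2 + 1)) ≤ μ := by
      rw [hμ]
      calc (U : ℝ) * (N / L ^ A) * (1 / L ^ (4 * 2 + 1)) ≤ U * M.card * V := by gcongr
        _ = U * M.card * V * 1 := by ring
        _ ≤ _ := mul_le_mul_of_nonneg_left hQ (by positivity)
    have q2 : 104 * δ' * (N / 12) * ((U : ℝ) * (N / L ^ A) * (1 / L ^ (4 * 2 + 1)) / 2) ≤ 104 * δ' * Y * (μ / 2) := by
      have : (N : ℝ) / 12 ≤ Y := by linarith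
      gcongr
    refine le_trans ?_ q2
    rw [hδ']
    have e3 : L ^ A1 = L ^ A * L ^ (4 * 2 + 1) * L := by rw [hA1]; ring
    have e4 : ((U : ℝ) * (N ^ 2 / L ^ A1)) = (48 / δ) / L * (104 * (δ / 208) * (N / 12) * ((U : ℝ) * (N / L ^ A) * (1 / L ^ (4 * 2 + 1)) / 2)) := by
      rw [e3]
      field_simp
      ring
    rw [e4]
    have e5 : (48 / δ) / L ≤ 1 := by rw [div_le_one hL0]; exact l2
    calc _ ≤ 1 * (104 * (δ / 208) * ((N : ℝ) / 12) * ((U : ℝ) * (N / L ^ A) * (1 / L ^ (4 * 2 + 1)) / 2)) :=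
          mul_le_mul_of_nonneg_right e5 (by positivity)
      _ = _ := one_mul _
  -- the bad integers are exceptional
  have hsub : (Ioc (2 * Y) (4 * Y)).filter (fun n => ∀ u < U, ∀ j ∈ M, ¬ AT r (n + u - j)) ⊆
      (((Ioc (2 * Y) (4 * Y)).filter (fun n => μ / 2 < |TL z R U M h2 (Λ2 lam) n - μ|)) ∪
        ((Ioc (2 * Y) (4 * Y)).filter (fun n => μ / 2 ≤ Er n))) := by
    intro n hn
    rw [mem_filter] at hn
    obtain ⟨hnI, hbad⟩ := hn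
    rw [mem_union, mem_filter, mem_filter]
    by_contra hcon
    push Not at hcon
    obtain ⟨c1, c2⟩ := hcon
    have c1 := c1 hnI
    have c2 := c2 hnI
    rw [mem_Ioc] at hnI
    have p2 : ∑ t ∈ range U ×ˢ M, DL z R h2 0 (Λ2 lam) (n + t.1 - t.2) + (Vz z)⁻¹ * TL z R U M h2 (Λ2 lam) n ≤ 0 := by
      unfold TL
      rw [mul_sum, ← sum_add_distrib]
      apply sum_nonpos
      intro t ht
      rw [mem_product, mem_range] at ht
      have hj := mem_Icc.1 (hM ht.2)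
      rw [← FL_pl]
      by_contra hcon2
      push Not at hcon2
      apply hbad t.1 ht.1 t.2 ht.2
      rw [hz] at hcon2
      exact AT_of hε hWt hr (by omega) (by omega) hcon2
    have p3 : μ / 2 ≤ TL z R U M h2 (Λ2 lam) n := by
      have := (abs_le.1 c1).1
      linarith
    have p4 : μ / 2 ≤ (Vz z)⁻¹ * TL z R U M h2 (Λ2 lam) n := by
      calc μ / 2 = 1 * (μ / 2) := by ring
        _ ≤ (Vz z)⁻¹ * TL z R U M h2 (Λ2 lam) n := mul_le_mul hv1 p3 (by positivity) (by linarith)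
    rw [hEr] at c2
    have p5 := neg_abs_le (∑ t ∈ range U ×ˢ M, DL z R h2 0 (Λ2 lam) (n + t.1 - t.2))
    simp only at c2
    linarith
  calc _ ≤ (((((Ioc (2 * Y) (4 * Y)).filter (fun n => μ / 2 < |TL z R U M h2 (Λ2 lam) n - μ|)) ∪
        ((Ioc (2 * Y) (4 * Y)).filter (fun n => μ / 2 ≤ Er n))).card : ℕ) : ℝ) := by
        exact_mod_cast card_le_card hsub
    _ ≤ (((Ioc (2 * Y) (4 * Y)).filter (fun n => μ / 2 < |TL z R U M h2 (Λ2 lam) n - μ|)).card : ℝ) +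
        (((Ioc (2 * Y) (4 * Y)).filter (fun n => μ / 2 ≤ Er n)).card : ℝ) := by
        exact_mod_cast (card_union_le _ _)
    _ ≤ 104 * δ' * Y + 104 * δ' * Y := add_le_add x0 (xE.trans xE')
    _ = δ * Y := by rw [hδ']; ring

end Pool.Agent.L0h42.EL
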