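import Mathlib
import Pool.Agent.L0h42.EL.L9

/-! From the core to initial segments. -/

set_option autoImplicit false
set_option linter.unusedSectionVars false

namespace Pool.Agent.L0h42.EL
open Finset
open Pool.Agent.L0h42.TB
open Pool.Agent.L0h42.EG hiding w_choice V_low_L total_gen sing_total variance_gen variance
open Pool.Agent.H373R2.T7

open Classical in
/-- **initial segments.** -/
theorem all_of_core (P : ℕ → Prop) (q : ℕ) (hcore : ∀ (A : ℕ) (δ : ℝ), 0 < δ → δ ≤ 1 → ∃ N0 : ℕ, ∀ N : ℕ, N0 ≤ N → ∀ Y U : ℕ,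
    6 * Y ≤ N → N ≤ 12 * Y → Real.log (Real.log (Real.log N)) ^ q ≤ U → 1 ≤ U → U ≤ Y →
    ∀ M ⊆ Icc 1 Y, N / Real.log N ^ A ≤ M.card →
    (((Ioc (2 * Y) (4 * Y)).filter (fun n => ∀ u < U, ∀ j ∈ M, ¬ P (n + u - j))).card : ℝ) ≤ δ * Y)
    (A : ℕ) (S : ℕ → Prop) (X1 : ℕ)
    (hS : ∀ X : ℕ, X1 ≤ X → X / Real.log X ^ A ≤ (((Icc 1 X).filter S).card : ℝ)) (ε : ℝ) (hε : 0 < ε) : ∃ X0 : ℕ, ∀ X : ℕ, X0 ≤ X →
    (((Icc 1 X).filter (fun n : ℕ => ¬ ∃ u j : ℕ, (u : ℝ) ≤ Real.log (Real.log (Real.log n)) ^ (q + 1) ∧ 1 ≤ j ∧ 2 * j < n ∧ S j ∧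
      P (n + u - j))).card : ℝ) ≤ ε * X := by
  obtain ⟨δ, hδd⟩ : ∃ δ : ℝ, δ = min (ε / 2) 1 := ⟨_, rfl⟩
  have hδ : 0 < δ := by rw [hδd]; exact lt_min (by linarith) one_pos
  have hδ1 : δ ≤ 1 := by rw [hδd]; exact min_le_right _ _
  have hδε : δ ≤ ε / 2 := by rw [hδd]; exact min_le_left _ _
  obtain ⟨N0, h0⟩ := hcore (A + 1) δ hδ hδ1
  obtain ⟨Y1, h1⟩ := l3_comp q
  obtain ⟨n2, h2⟩ := ev_L' 12
  obtain ⟨n3, h3⟩ := logs_large 1
  obtain ⟨n4, h4⟩ := ev_log' q 24
  obtain ⟨n5, h5⟩ := sq_log_small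
  have hdy : ∀ Y, max (max N0 Y1) (max (max X1 n2) (max n3 (max n4 (max n5 32)))) ≤ Y →
      (((Ioc (2 * Y) (4 * Y)).filter (fun n : ℕ => ¬ ∃ u j : ℕ, (u : ℝ) ≤ Real.log (Real.log (Real.log n)) ^ (q + 1) ∧ 1 ≤ j ∧ 2 * j < n ∧ S j ∧
      P (n + u - j))).card : ℝ) ≤ δ * Y := by
    intro Y hY
    have hN0 : N0 ≤ Y := le_trans (le_trans (le_max_left _ _) (le_max_left _ _)) hY
    have hY1 : Y1 ≤ Y := le_trans (le_trans (le_max_right _ _) (le_max_left _ _)) hY
    have hh := le_trans (le_max_right _ _) hY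
    have hX1 : X1 ≤ Y := le_trans (le_trans (le_max_left _ _) (le_max_left _ _)) hh
    have hn2 : n2 ≤ Y := le_trans (le_trans (le_max_right _ _) (le_max_left _ _)) hh
    have hh' := le_trans (le_max_right _ _) hh
    have hn3 : n3 ≤ Y := le_trans (le_max_left _ _) hh'
    have hn4 : n4 ≤ Y := le_trans (le_trans (le_max_left _ _) (le_max_right _ _)) hh'
    have hn5 : n5 ≤ Y := le_trans (le_trans (le_max_left _ _) (le_trans (le_max_right _ _) (le_max_right _ _))) hh'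
    have h32 : 32 ≤ Y := le_trans (le_trans (le_max_right _ _) (le_trans (le_max_right _ _) (le_max_right _ _))) hh'
    obtain ⟨N, hN⟩ : ∃ N, N = 12 * Y := ⟨_, rfl⟩
    have a2 := h2 N (by omega)
    have a3 := h3 N (by omega)
    have a4 := h4 N (by omega)
    have a5 := h5 N (by omega)
    have hYr : (32 : ℝ) ≤ Y := by exact_mod_cast h32
    have hN' : (N : ℝ) = 12 * Y := by rw [hN]; push_cast; ring
    have hlogN : 12 ≤ Real.log N := a2
    have hl2 : 0 < Real.log (Real.log N) := Real.log_pos (by linarith)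
    have hl2' : 1 ≤ Real.log (Real.log N) := by
      by_contra hcon
      push Not at hcon
      have := Real.log_nonpos hl2.le hcon.le
      linarith
    have hl32 : Real.log (Real.log (Real.log N)) ≤ Real.log (Real.log N) := by
      have := Real.log_le_sub_one_of_pos hl2
      linarith
    have hl21 : Real.log (Real.log N) ≤ Real.log N := by
      have := Real.log_le_sub_one_of_pos (show 0 < Real.log N by linarith)
      linarith
    obtain ⟨U, hU⟩ : ∃ U, U = ⌈Real.log (Real.log (Real.log N)) ^ q⌉₊ := ⟨_, rfl⟩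
    have hU0 : Real.log (Real.log (Real.log N)) ^ q ≤ U := by rw [hU]; exact Nat.le_ceil _
    have hp1 : 1 ≤ Real.log (Real.log (Real.log N)) ^ q := one_le_pow₀ a3
    have hU1 : 1 ≤ U := by
      have : (1 : ℝ) ≤ U := by linarith
      exact_mod_cast this
    have hUY : U ≤ Y := by
      have q1 : (U : ℝ) ≤ Real.log (Real.log (Real.log N)) ^ q + 1 := by
        rw [hU]; exact (Nat.ceil_lt_add_one (by positivity)).le
      have q2 : Real.log (Real.log (Real.log N)) ^ q ≤ Real.log N ^ q :=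
        pow_le_pow_left₀ (by linarith) (hl32.trans hl21) _
      have q3 : √(N : ℝ) ≤ N := by
        rw [Real.sqrt_le_left (Nat.cast_nonneg _)]
        rw [hN']
        nlinarith
      have q4 : (1 : ℝ) ≤ Real.log N ^ q := one_le_pow₀ (by linarith)
      have q5 : (12 : ℝ) * U ≤ N := by linarith
      have : (U : ℝ) ≤ Y := by
        rw [hN'] at q5
        linarith
      exact_mod_cast this
    have hMc : (N : ℝ) / Real.log N ^ (A + 1) ≤ (((Icc 1 Y).filter S).card : ℝ) := by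
      refine le_trans ?_ (hS Y hX1)
      have hlY : 0 < Real.log Y := Real.log_pos (by linarith)
      have hlYN : Real.log Y ≤ Real.log N := by
        apply Real.log_le_log (by linarith)
        rw [hN']; linarith
      rw [div_le_div_iff₀ (by positivity) (by positivity)]
      have q1 : Real.log Y ^ A ≤ Real.log N ^ A := pow_le_pow_left₀ hlY.le hlYN A
      calc (N : ℝ) * Real.log Y ^ A = Y * (12 * Real.log Y ^ A) := by rw [hN']; ring
        _ ≤ Y * (Real.log N * Real.log N ^ A) := by gcongr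
        _ = Y * Real.log N ^ (A + 1) := by ring
    have key := h0 N (by omega) Y U (by omega) (by omega) hU0 hU1 hUY ((Icc 1 Y).filter S) (filter_subset _ _) hMc
    refine le_trans (Nat.cast_le.2 (card_le_card ?_)) key
    intro n hn
    rw [mem_filter, mem_Ioc] at hn
    rw [mem_filter, mem_Ioc]
    refine ⟨hn.1, fun u hu j hj => ?_⟩
    rw [mem_filter, mem_Icc] at hj
    by_contra hcon
    apply hn.2
    refine ⟨u, j, h1 Y hY1 n hn.1.1 u ?_, hj.1.1, by omega, hj.2, hcon⟩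
    rw [← hN, ← hU]
    exact hu
  obtain ⟨K, hK⟩ := dyadic_sum _ δ hδ.le _ hdy
  refine ⟨⌈2 * K / ε⌉₊, fun X hX => ?_⟩
  refine (hK X).trans ?_
  have q1 : 2 * (K : ℝ) / ε ≤ X := (Nat.le_ceil _).trans (by exact_mod_cast hX)
  rw [div_le_iff₀ hε] at q1
  have q2 : δ * (X : ℝ) ≤ ε / 2 * X := mul_le_mul_of_nonneg_right hδε (Nat.cast_nonneg _)
  linarith

end Pool.Agent.L0h42.EL
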