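import Mathlib
import Pool.Agent.L0h42.EL.L10
import Pool.Agent.L0h42.EG.F2

/-! The number of almost twin primes; sums of two indices of almost twin primes. -/

set_option autoImplicit false
set_option linter.unusedSectionVars false

namespace Pool.Agent.L0h42.EL
open Finset
open Pool.Agent.L0h42.TB
open Pool.Agent.L0h42.EG hiding w_choice V_low_L total_gen sing_total variance_gen variance
open Pool.Agent.H373R2.T7
open Pool.Agent.TH665.GP (ff ff_pi)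

set_option maxHeartbeats 4000000 in
open Classical in
/-- many almost twin primes in an interval -/
theorem dens2 {ε : ℝ} (hε : 0 < ε) (hW : ∀ B : ℕ, 1 ≤ B → ∃ N0 : ℕ, ∀ N : ℕ, N0 ≤ N → ∃ (R : ℕ) (lam : ℕ → ℝ), Wt ε B N R lam)
    (r : ℕ) (hr : 1 / ε ≤ r) : ∃ N0 : ℕ, ∀ N : ℕ, N0 ≤ N → ∀ Y : ℕ,
    6 * Y ≤ N → N ≤ 12 * Y → N / Real.log N ^ 13 ≤ (((Ioc Y (5 * Y)).filter (AT r)).card : ℝ) := by
  obtain ⟨e0, hE0⟩ := first_one 2 10 4 (by norm_num)
  obtain ⟨e1, hE1⟩ := prime_one 2 10 4 (by norm_num)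
  obtain ⟨E0, hE0d⟩ : ∃ E0, E0 = max e0 e1 + 1 := ⟨_, rfl⟩
  obtain ⟨m0, h0⟩ := hE0 (E0 + 1)
  obtain ⟨m1, h1⟩ := hE1 (E0 + 1)
  obtain ⟨m2, hm2⟩ := hW (E0 + 1) (by omega)
  obtain ⟨m4, h4⟩ := ev_L' 24
  obtain ⟨m5, h5⟩ := ev_log' (E0 + 1) 28
  obtain ⟨m6, h6⟩ := V_low_L 2 (E0 + 1) (by norm_num)
  refine ⟨max (max (max m0 m1) m2) (max m4 (max m5 (max m6 16))), ?_⟩
  intro N hN Y hY1 hY2
  have n0 : m0 ≤ N := le_trans (le_trans (le_trans (le_max_left _ _) (le_max_left _ _)) (le_max_left _ _)) hN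
  have n1 : m1 ≤ N := le_trans (le_trans (le_trans (le_max_right _ _) (le_max_left _ _)) (le_max_left _ _)) hN
  have n2 : m2 ≤ N := le_trans (le_trans (le_max_right _ _) (le_max_left _ _)) hN
  have nn := le_trans (le_max_right _ _) hN
  have n4 : m4 ≤ N := le_trans (le_max_left _ _) nn
  have n5 : m5 ≤ N := le_trans (le_trans (le_max_left _ _) (le_max_right _ _)) nn
  have nn' := le_trans (le_max_right m5 _) (le_trans (le_max_right _ _) nn)
  have n6 : m6 ≤ N := le_trans (le_max_left _ _) nn'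
  have hN16 : 16 ≤ N := le_trans (le_max_right _ _) nn'
  have hN0 : (0 : ℝ) < N := by exact_mod_cast (show 0 < N by omega)
  have b4 := h4 N n4
  have b5 := h5 N n5
  have hfo := h0 N n0
  have hpo := h1 N n1
  obtain ⟨R, lam, hWt⟩ := hm2 N n2
  have hVl := h6 N n6
  set L := Real.log N with hL
  have hL1 : 1 ≤ L := by linarith
  have hL0 : 0 < L := by linarith
  -- the parameter `z`
  obtain ⟨z, hz⟩ : ∃ z, z = ⌈L ^ (E0 + 1)⌉₊ - 1 := ⟨_, rfl⟩
  have hzc : (z : ℝ) + 1 = (⌈L ^ (E0 + 1)⌉₊ : ℝ) := by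
    have h3 : 0 < ⌈L ^ (E0 + 1)⌉₊ := Nat.ceil_pos.2 (by positivity)
    have : z + 1 = ⌈L ^ (E0 + 1)⌉₊ := by omega
    exact_mod_cast this
  have hz2' : (z : ℝ) ≤ L ^ (E0 + 1) := by
    have := (Nat.ceil_lt_add_one (show 0 ≤ L ^ (E0 + 1) by positivity)).le
    linarith
  have hz1 : L ^ E0 ≤ z := by
    have g1 : L ^ (E0 + 1) ≤ z + 1 := by rw [hzc]; exact Nat.le_ceil _
    have g2 : 1 ≤ L ^ E0 := one_le_pow₀ hL1
    rw [pow_succ] at g1
    nlinarith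
  have hze0 : L ^ e0 ≤ z := (pow_le_pow_right₀ hL1 (by have := le_max_left e0 e1; omega)).trans hz1
  have hze1 : L ^ e1 ≤ z := (pow_le_pow_right₀ hL1 (by have := le_max_right e0 e1; omega)).trans hz1
  have hzL : L ≤ z := (le_self_pow₀ hL1 (by omega)).trans hz1
  have hz8 : 8 ≤ z := by
    have : (8 : ℝ) ≤ z := by linarith
    exact_mod_cast this
  have hhz : ∀ l, h2 l ≤ z := fun l => (h2_le l).trans (by omega)
  have hsq : √(N : ℝ) ≤ N := by
    rw [Real.sqrt_le_left (by positivity)]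
    have : (1 : ℝ) ≤ N := by exact_mod_cast (show 1 ≤ N by omega)
    nlinarith
  have hYr : (N : ℝ) ≤ 12 * Y := by exact_mod_cast hY2
  have hY0 : (0 : ℝ) < Y := by linarith
  have hzY : z ≤ Y := by
    have g1 : (28 : ℝ) * z ≤ N := by
      calc (28 : ℝ) * z ≤ 28 * L ^ (E0 + 1) := by linarith
        _ ≤ √N := b5
        _ ≤ N := hsq
    have g2 : 28 * z ≤ N := by exact_mod_cast g1
    omega
  have hΛ : ∀ d ∈ PD (Fin 2) z R, |Λ2 lam d| ≤ L ^ 4 := fun d _ => Λ2_bd hL0.le hWt.bd d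
  have hsi : ∀ d, Λ2 lam d ≠ 0 → ∏ l, d l ≤ R ∧ d 0 = 1 := fun d hd => Λ2_supp hWt.supp d hd
  have hs : ∀ d, Λ2 lam d ≠ 0 → ∏ l, d l ≤ R := fun d hd => (hsi d hd).1
  obtain ⟨Q, hQd⟩ : ∃ Q, Q = Lf z R (Λ2 lam) := ⟨_, rfl⟩
  have hQ : 1 ≤ Q := by
    rw [hQd, Lf_h2 z R hWt.R1, hz]
    exact hWt.low
  have hv1 : 1 ≤ (Vz z)⁻¹ := (one_le_inv₀ (Vz_pos z)).2 (Vz_le_one z)
  obtain ⟨V, hV⟩ : ∃ V, V = VV z (cneg h2) := ⟨_, rfl⟩
  have hVlow : 1 / L ^ (4 * 2 + 1) ≤ V := by rw [hV]; exact hVl z (by omega) hz2' h2 V_low2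
  have hV0 : 0 < V := lt_of_lt_of_le (by positivity) hVlow
  have f1 := hfo z R hze0 hz2' hWt.R1 hWt.R80 h2 h2_inj hhz (Λ2 lam) hΛ hs Y (5 * Y) (by omega) (by omega)
  have f2 := hpo z R hze1 hz2' hWt.R1 hWt.R80 h2 h2_inj hhz 0 (Λ2 lam) hΛ hsi Y (5 * Y) hzY (by omega) (by omega)
  rw [← hV, ← hQd] at f1
  obtain ⟨S1, hS1⟩ : ∃ S1, S1 = ∑ a ∈ Ioc Y (5 * Y), FL z R h2 (Λ2 lam) a := ⟨_, rfl⟩
  obtain ⟨S2, hS2⟩ : ∃ S2, S2 = ∑ a ∈ Ioc Y (5 * Y), DL z R h2 0 (Λ2 lam) a := ⟨_, rfl⟩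
  rw [← hS1] at f1
  rw [← hS2] at f2
  have g1 := (abs_le.1 f1).1
  have g2 := (abs_le.1 f2).1
  have e1 : ((5 * Y : ℕ) : ℝ) - (Y : ℕ) = 4 * Y := by push_cast; ring
  rw [e1] at g1
  have hmain : N / (3 * L ^ 9) ≤ 4 * Y * V * Q := by
    calc N / (3 * L ^ 9) = 4 * (N / 12) * (1 / L ^ (4 * 2 + 1)) * 1 := by
          have : (4 * 2 + 1) = 9 := by norm_num
          rw [this]
          field_simp
          norm_num
      _ ≤ 4 * Y * V * Q := by
          have : (N : ℝ) / 12 ≤ Y := by linarith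
          gcongr
  have herr : N / L ^ 10 ≤ N / (24 * L ^ 9) := by
    apply div_le_div_of_nonneg_left hN0.le (by positivity)
    rw [pow_succ L 9, mul_comm]
    exact mul_le_mul_of_nonneg_left b4 (by positivity)
  have k1 : N / (3 * L ^ 9) = 8 * (N / (24 * L ^ 9)) := by field_simp; norm_num
  have k0 : 0 ≤ N / (24 * L ^ 9) := by positivity
  have hS1p : 7 * (N / (24 * L ^ 9)) ≤ S1 := by linarith
  have hS1v : S1 ≤ (Vz z)⁻¹ * S1 := le_mul_of_one_le_left (by linarith) hv1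
  have htot : ∑ a ∈ Ioc Y (5 * Y), FL z R h2 (Λ2 lam) a * pl (a + h2 0) = S2 + (Vz z)⁻¹ * S1 := by
    rw [hS1, hS2, mul_sum, ← sum_add_distrib]
    exact sum_congr rfl fun a _ => FL_pl z R h2 0 (Λ2 lam) a
  have hlow : N / (4 * L ^ 9) ≤ ∑ a ∈ Ioc Y (5 * Y), FL z R h2 (Λ2 lam) a * pl (a + h2 0) := by
    rw [htot]
    have : N / (4 * L ^ 9) = 6 * (N / (24 * L ^ 9)) := by field_simp; norm_num
    rw [this]
    linarith
  have hup : ∑ a ∈ Ioc Y (5 * Y), FL z R h2 (Λ2 lam) a * pl (a + h2 0) ≤ (((Ioc Y (5 * Y)).filter (AT r)).card : ℝ) * (L ^ 2 * L) := by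
    rw [← sum_filter_add_sum_filter_not (Ioc Y (5 * Y)) (AT r)]
    have u1 : ∑ a ∈ (Ioc Y (5 * Y)).filter (AT r), FL z R h2 (Λ2 lam) a * pl (a + h2 0) ≤ (((Ioc Y (5 * Y)).filter (AT r)).card : ℝ) * (L ^ 2 * L) := by
      rw [← nsmul_eq_mul]
      apply sum_le_card_nsmul
      intro a ha
      rw [mem_filter, mem_Ioc] at ha
      rw [hz]
      exact FLpl_up hWt (by omega) (by omega)
    have u2 : ∑ a ∈ (Ioc Y (5 * Y)).filter (fun a => ¬ AT r a), FL z R h2 (Λ2 lam) a * pl (a + h2 0) ≤ 0 := by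
      apply sum_nonpos
      intro a ha
      rw [mem_filter, mem_Ioc] at ha
      by_contra hcon
      push Not at hcon
      apply ha.2
      rw [hz] at hcon
      exact AT_of hε hWt hr (by omega) (by omega) hcon
    linarith
  have hfin := hlow.trans hup
  rw [div_le_iff₀ (by positivity)] at hfin ⊢
  refine hfin.trans ?_
  have : (((Ioc Y (5 * Y)).filter (AT r)).card : ℝ) * (L ^ 2 * L) * (4 * L ^ 9) = (((Ioc Y (5 * Y)).filter (AT r)).card : ℝ) * (4 * L ^ 12) := by ring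
  rw [this]
  apply mul_le_mul_of_nonneg_left _ (Nat.cast_nonneg _)
  rw [pow_succ L 12, mul_comm]
  exact mul_le_mul_of_nonneg_left (by linarith) (by positivity)

open Classical in
/-- the indices of almost twin primes have log density -/
lemma idx_dense (P : ℕ → Prop) (A X1 : ℕ) (h : ∀ X : ℕ, X1 ≤ X → X / Real.log X ^ A ≤ (((Icc 1 X).filter (fun p => p.Prime ∧ P p)).card : ℝ)) :
    ∀ X : ℕ, X1 ≤ X → X / Real.log X ^ A ≤ (((Icc 1 X).filter (fun i => 1 ≤ i ∧ P (ff i))).card : ℝ) := by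
  refine fun X hX => (h X hX).trans ?_
  have : ((Icc 1 X).filter (fun p => p.Prime ∧ P p)).card ≤ ((Icc 1 X).filter (fun i => 1 ≤ i ∧ P (ff i))).card := by
    apply card_le_card_of_injOn Nat.primeCounting
    · intro p hp
      rw [mem_coe, mem_filter, mem_Icc] at hp
      rw [mem_coe, mem_filter, mem_Icc]
      have h2 : Nat.primeCounting p = Nat.count Nat.Prime p + 1 := by
        rw [Nat.primeCounting, Nat.primeCounting', Nat.count_succ, if_pos hp.2.1]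
      have h3 : Nat.primeCounting p ≤ p := by
        rw [h2]
        have h4 : Nat.count Nat.Prime p ≤ p - 1 := by
          have h5 : Nat.count Nat.Prime p = Nat.count Nat.Prime (1 + (p - 1)) := by
            congr 1
            have := hp.1.1
            omega
          rw [h5, Nat.count_add]
          have h6 : Nat.count Nat.Prime 1 = 0 := by decide
          rw [h6, zero_add]
          exact Nat.count_le _
        have := hp.1.1
        omega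
      refine ⟨⟨by omega, by omega⟩, by omega, ?_⟩
      rw [ff_pi hp.2.1]
      exact hp.2.2
    · intro p hp q hq hpq
      rw [mem_coe, mem_filter] at hp hq
      have h2 := ff_pi hp.2.1
      have h3 := ff_pi hq.2.1
      rw [← h2, ← h3]
      try simp only at hpq
      rw [hpq]
  exact_mod_cast this

open Classical in
lemma AT_dense {ε : ℝ} (hε : 0 < ε) (hW : ∀ B : ℕ, 1 ≤ B → ∃ N0 : ℕ, ∀ N : ℕ, N0 ≤ N → ∃ (R : ℕ) (lam : ℕ → ℝ), Wt ε B N R lam)
    (r : ℕ) (hr : 1 / ε ≤ r) : ∃ X1 : ℕ, ∀ X : ℕ, X1 ≤ X → X / Real.log X ^ 14 ≤ (((Icc 1 X).filter (fun p => p.Prime ∧ AT r p)).card : ℝ) := by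
  obtain ⟨N0, h0⟩ := dens2 hε hW r hr
  obtain ⟨n1, h1⟩ := ev_L' (2 ^ 13)
  refine ⟨max (max N0 n1) 100, fun X hX => ?_⟩
  have hX100 : 100 ≤ X := le_trans (le_max_right _ _) hX
  have hXn := le_trans (le_max_left _ _) hX
  obtain ⟨Y, hY⟩ : ∃ Y, Y = X / 5 := ⟨_, rfl⟩
  have h2 := h0 (12 * Y) (by have := le_trans (le_max_left _ _) hXn; omega) Y (by omega) (by omega)
  have hL := h1 X (le_trans (le_max_right _ _) hXn)
  have hX0 : (0 : ℝ) < X := by exact_mod_cast (by omega : 0 < X)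
  have h3 : ((Ioc Y (5 * Y)).filter (AT r)).card ≤ ((Icc 1 X).filter (fun p => p.Prime ∧ AT r p)).card := by
    apply card_le_card
    intro a ha
    rw [mem_filter, mem_Ioc] at ha
    rw [mem_filter, mem_Icc]
    exact ⟨⟨by omega, by omega⟩, ha.2.1, ha.2⟩
  refine le_trans (le_trans ?_ h2) (Nat.cast_le.2 h3)
  have h4 : Real.log (12 * Y : ℕ) ≤ 2 * Real.log X := by
    have : ((12 * Y : ℕ) : ℝ) ≤ (X : ℝ) ^ 2 := by
      have : 12 * Y ≤ X ^ 2 := by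
        rw [sq]
        exact (show 12 * Y ≤ 3 * X by omega).trans (Nat.mul_le_mul_right X (by omega))
      exact_mod_cast this
    have h5 := Real.log_le_log (by exact_mod_cast (by omega : 0 < 12 * Y)) this
    rw [Real.log_pow] at h5
    exact_mod_cast h5
  have h6 : (X : ℝ) ≤ (12 * Y : ℕ) := by exact_mod_cast (by omega : X ≤ 12 * Y)
  have hl0 : 0 < Real.log (12 * Y : ℕ) := Real.log_pos (by exact_mod_cast (by omega : 1 < 12 * Y))
  have hlX : 0 < Real.log X := by linarith [show (0 : ℝ) < 2 ^ 13 by norm_num]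
  rw [div_le_div_iff₀ (by positivity) (by positivity)]
  have h7 := pow_le_pow_left₀ hl0.le h4 13
  calc (X : ℝ) * Real.log (12 * Y : ℕ) ^ 13 ≤ (12 * Y : ℕ) * (2 * Real.log X) ^ 13 := mul_le_mul h6 h7 (by positivity) (Nat.cast_nonneg _)
    _ = (12 * Y : ℕ) * (2 ^ 13 * Real.log X ^ 13) := by rw [mul_pow]
    _ ≤ (12 * Y : ℕ) * (Real.log X * Real.log X ^ 13) := by gcongr
    _ = _ := by ring

open Classical in
theorem two_twins : ∃ r : ℕ, ∀ ε : ℝ, 0 < ε → ∃ X1 : ℕ, ∀ X : ℕ, X1 ≤ X →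
    (((Icc 1 X).filter (fun n : ℕ => ¬ ∃ k j : ℕ, 1 ≤ k ∧ 1 ≤ j ∧ n ≤ k + j ∧ ((k + j : ℕ) : ℝ) ≤ n + Real.log (Real.log (Real.log n)) ^ 19 ∧
      AT r (6 * k - 1) ∧ AT r (ff j))).card : ℝ) ≤ ε * X := by
  obtain ⟨η, hη, -, hW⟩ := Wt_exists
  obtain ⟨r, hr⟩ : ∃ r, r = ⌈1 / η⌉₊ := ⟨_, rfl⟩
  have hr1 : 1 / η ≤ r := by rw [hr]; exact Nat.le_ceil _
  refine ⟨r, fun ε hε => ?_⟩
  obtain ⟨X1, hX1⟩ := AT_dense hη hW r hr1
  have hidx := idx_dense (AT r) 14 X1 hX1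
  obtain ⟨X2, h6⟩ := six_dense (fun i => 1 ≤ i ∧ AT r (ff i)) 14 X1 (fun X hX => by convert hidx X hX)
  obtain ⟨X0, h0⟩ := all_of_core (AT r) (2 * 2 ^ 3 + 1) (fun A δ hδ hδ1 => core2 hη hW r hr1 A δ hδ hδ1) (14 + 1) _ X2 h6 (ε / (2 * (6 : ℕ))) (by positivity)
  obtain ⟨n1, hn1⟩ := l3_mul 6 (by norm_num)
  obtain ⟨n2, hn2⟩ := logs_large (2 ^ 18)
  refine mult_transfer 6 (by norm_num) _ _ (max (max n1 n2) (3 ^ r + 3)) ?_ ε hε X0 h0
  intro n hn
  contrapose!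
  rintro ⟨u, j, hu, hj1, hj2, ⟨i, rfl, hi1, hi2⟩, hat⟩
  obtain ⟨b1, b2, b3⟩ := hn1 n (le_trans (le_trans (le_max_left _ _) (le_max_left _ _)) hn)
  have b4 := hn2 n (le_trans (le_trans (le_max_right _ _) (le_max_left _ _)) hn)
  have hn3 : 3 ^ r + 3 ≤ n := le_trans (le_max_right _ _) hn
  -- the residue class
  have h23 : 2 ^ r ≤ 3 ^ r := Nat.pow_le_pow_left (by norm_num) r
  have hmod : (6 * n + u - 6 * i) % 6 = 5 := by
    have hp := hat.1
    have h2' : (6 * n + u - 6 * i) % 2 = 1 := by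
      rcases hp.eq_two_or_odd with h | h
      · omega
      · exact h
    have h3' : (6 * n + u - 6 * i) % 3 ≠ 0 := by
      intro h
      have := (Nat.prime_dvd_prime_iff_eq Nat.prime_three hp).1 (Nat.dvd_of_mod_eq_zero h)
      omega
    have h3'' : (6 * n + u - 6 * i + 2) % 3 ≠ 0 := by
      intro h
      have := hat.2.2 3 Nat.prime_three (Nat.dvd_of_mod_eq_zero h)
      omega
    have h66 : (6 * n + u - 6 * i) % 6 = 0 ∨ (6 * n + u - 6 * i) % 6 = 1 ∨ (6 * n + u - 6 * i) % 6 = 2 ∨ (6 * n + u - 6 * i) % 6 = 3 ∨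
      (6 * n + u - 6 * i) % 6 = 4 ∨ (6 * n + u - 6 * i) % 6 = 5 := by omega
    rcases h66 with h | h | h | h | h | h <;> omega
  refine ⟨n + (u + 1) / 6 - i, i, by omega, hi1, by omega, ?_, ?_, hi2⟩
  · have h2 : (u : ℝ) ≤ 2 ^ 18 * Real.log (Real.log (Real.log n)) ^ 18 := by
      refine hu.trans ?_
      rw [← mul_pow]
      exact pow_le_pow_left₀ b2 b3 _
    have h6' : (2 ^ 18 : ℝ) * Real.log (Real.log (Real.log n)) ^ 18 ≤ Real.log (Real.log (Real.log n)) ^ 19 := by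
      rw [pow_succ _ 18, mul_comm]
      exact mul_le_mul_of_nonneg_left b4 (by positivity)
    have h7 : n + (u + 1) / 6 - i + i ≤ n + u := by omega
    have h8 : ((n + (u + 1) / 6 - i + i : ℕ) : ℝ) ≤ n + u := by exact_mod_cast h7
    linarith
  · have : 6 * (n + (u + 1) / 6 - i) - 1 = 6 * n + u - 6 * i := by omega
    rw [this]
    exact hat

end Pool.Agent.L0h42.EL
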